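import Mathlib

/-!
# Distributing cycles
-/

set_option autoImplicit false
set_option linter.all false

namespace Pool.Agent.X285.FS

theorem sum_filter_add (R : Multiset ℕ) (P : ℕ → Prop) [DecidablePred P] :
    (R.filter P).sum + (R.filter (fun l => ¬ P l)).sum = R.sum := by
  rw [← Multiset.sum_add, Multiset.filter_add_not]

theorem sum_replicate' {I : Type} [DecidableEq I] (S : Finset I) (n : I → ℕ) (L : ℕ) :
    ∑ i ∈ S, Multiset.replicate (n i) L = Multiset.replicate (∑ i ∈ S, n i) L := by
  induction S using Finset.induction_on with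
  | empty => simp
  | insert a s ha ih => rw [Finset.sum_insert ha, Finset.sum_insert ha, Multiset.replicate_add, ih]

theorem comb {I : Type} [DecidableEq I] (S : Finset I) (c : I → ℕ) (hc : ∀ i ∈ S, 0 < c i)
    (R : Multiset ℕ) (h0 : 0 ∉ R) (d L : ℕ) (hL : 0 < L)
    (hR : R.sum = (∑ i ∈ S, c i) * d)
    (h1 : ∀ i ∈ S, c i ∣ L)
    (h2 : ∀ l ∈ R, l ≠ L → ∃ i ∈ S, c i ∣ l)
    (h3 : ∀ l, l ≠ L → L ∣ l * R.count l)
    (h4 : L ∣ d)
    (h5 : (R.filter (fun l => l ≠ L)).sum ≤ d) :
    ∃ e : I → Multiset ℕ, (∀ i ∈ S, 0 ∉ e i ∧ (e i).sum = d) ∧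
      R = ∑ i ∈ S, (e i).map (fun a => c i * a) := by
  classical
  have hf : ∀ l : ℕ, ∃ i : Option I, l ∈ R → l ≠ L → ∃ i', i = some i' ∧ i' ∈ S ∧ c i' ∣ l := by
    intro l
    by_cases h : l ∈ R ∧ l ≠ L
    · obtain ⟨i, hi, hi'⟩ := h2 l h.1 h.2
      exact ⟨some i, fun _ _ => ⟨i, rfl, hi, hi'⟩⟩
    · exact ⟨none, fun h1 h2 => absurd ⟨h1, h2⟩ h⟩
  choose f hf using hf
  set Q : I → Multiset ℕ := fun i => R.filter (fun l => l ≠ L ∧ f l = some i) with hQ
  have hQdvd : ∀ i, ∀ l ∈ Q i, c i ∣ l := by
    intro i l hl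
    rw [hQ, Multiset.mem_filter] at hl
    obtain ⟨i', h6, h7, h8⟩ := hf l hl.1 hl.2.1
    rw [hl.2.2] at h6
    obtain rfl := Option.some.inj h6
    exact h8
  have hT : ∀ i, L ∣ (Q i).sum := by
    intro i
    rw [Finset.sum_multiset_count]
    refine Finset.dvd_sum fun l hl => ?_
    rw [Multiset.mem_toFinset, hQ, Multiset.mem_filter] at hl
    change L ∣ Multiset.count l (R.filter (fun l => l ≠ L ∧ f l = some i)) • l
    rw [Multiset.count_filter_of_pos (p := fun l => l ≠ L ∧ f l = some i) hl.2, smul_eq_mul, mul_comm]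
    exact h3 l hl.2.1
  have hsum : ∑ i ∈ S, Q i = R.filter (fun l => l ≠ L) := by
    ext l
    rw [Multiset.count_sum', Multiset.count_filter]
    split_ifs with h
    · by_cases hl : l ∈ R
      · obtain ⟨i', h6, h7, h8⟩ := hf l hl h
        rw [Finset.sum_eq_single i']
        · rw [hQ, Multiset.count_filter_of_pos ⟨h, h6⟩]
        · intro b _ hb
          rw [hQ, Multiset.count_filter_of_neg]
          rintro ⟨_, h9⟩
          rw [h6] at h9
          exact hb (Option.some.inj h9).symm
        · intro h9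
          exact absurd h7 h9
      · rw [Multiset.count_eq_zero_of_notMem hl]
        refine Finset.sum_eq_zero fun i _ => ?_
        refine Multiset.count_eq_zero_of_notMem fun h9 => hl ?_
        rw [hQ, Multiset.mem_filter] at h9
        exact h9.1
    · refine Finset.sum_eq_zero fun i _ => ?_
      rw [hQ, Multiset.count_filter_of_neg]
      rintro ⟨h9, _⟩
      exact h h9
  have hTd : ∀ i ∈ S, (Q i).sum ≤ c i * d := by
    intro i hi
    have h6 : (Q i).sum ≤ (∑ i ∈ S, Q i).sum := by
      rw [← Finset.add_sum_erase S Q hi, Multiset.sum_add]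
      exact Nat.le_add_right _ _
    rw [hsum] at h6
    exact (h6.trans h5).trans (Nat.le_mul_of_pos_left _ (hc i hi))
  have hdv : ∀ i ∈ S, L ∣ c i * d - (Q i).sum := fun i _ =>
    Nat.dvd_sub (h4.mul_left _) (hT i)
  set n : I → ℕ := fun i => (c i * d - (Q i).sum) / L with hn
  have hn1 : ∀ i ∈ S, n i * L = c i * d - (Q i).sum := fun i hi => Nat.div_mul_cancel (hdv i hi)
  have hmap : ∀ i ∈ S, (Q i).map (fun l => c i * (l / c i)) = Q i := by
    intro i hi
    conv_rhs => rw [← Multiset.map_id (Q i)]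
    refine Multiset.map_congr rfl fun l hl => ?_
    rw [id, Nat.mul_div_cancel' (hQdvd i l hl)]
  refine ⟨fun i => (Q i).map (fun l => l / c i) + Multiset.replicate (n i) (L / c i),
    fun i hi => ⟨?_, ?_⟩, ?_⟩
  · rw [Multiset.mem_add, not_or]
    constructor
    · rw [Multiset.mem_map]
      rintro ⟨l, hl, hl0⟩
      have h6 := hQdvd i l hl
      have h7 : l ≠ 0 := by
        rintro rfl
        rw [hQ, Multiset.mem_filter] at hl
        exact h0 hl.1
      have h8 := Nat.div_pos (Nat.le_of_dvd (Nat.pos_of_ne_zero h7) h6) (hc i hi)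
      omega
    · intro h6
      have h7 := Multiset.eq_of_mem_replicate h6
      have h8 := Nat.div_pos (Nat.le_of_dvd hL (h1 i hi)) (hc i hi)
      omega
  · refine Nat.eq_of_mul_eq_mul_left (hc i hi) ?_
    rw [Multiset.sum_add, Multiset.sum_replicate, smul_eq_mul, mul_add, ← Multiset.sum_map_mul_left,
      hmap i hi]
    have h6 : c i * (n i * (L / c i)) = n i * L := by
      rw [mul_left_comm, Nat.mul_div_cancel' (h1 i hi)]
    rw [h6, hn1 i hi]
    have := hTd i hi
    omega
  · have h6 : ∀ i ∈ S, ((Q i).map (fun l => l / c i) + Multiset.replicate (n i) (L / c i)).map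
        (fun a => c i * a) = Q i + Multiset.replicate (n i) L := by
      intro i hi
      rw [Multiset.map_add, Multiset.map_map, Multiset.map_replicate, Nat.mul_div_cancel' (h1 i hi)]
      congr 1
      exact hmap i hi
    rw [Finset.sum_congr rfl h6, Finset.sum_add_distrib, hsum]
    have h7 := sum_replicate' S n L
    have h8 : (∑ i ∈ S, n i) = R.count L := by
      refine Nat.eq_of_mul_eq_mul_right hL ?_
      have h9 : ∑ i ∈ S, (Q i).sum = (R.filter (fun l => l ≠ L)).sum := by
        rw [← hsum]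
        exact (map_sum Multiset.sumAddMonoidHom Q S).symm
      have h10 : (R.filter (fun l => ¬ (l ≠ L))).sum = R.count L * L := by
        have : R.filter (fun l => ¬ (l ≠ L)) = Multiset.replicate (R.count L) L := by
          rw [← Multiset.filter_eq']
          refine Multiset.filter_congr fun x _ => ?_
          rw [not_not]
        rw [this, Multiset.sum_replicate, smul_eq_mul]
      have h11 := sum_filter_add R (fun l => l ≠ L)
      rw [Finset.sum_mul, Finset.sum_congr rfl hn1, ← h10]
      have h12 : ∑ i ∈ S, (c i * d - (Q i).sum) + ∑ i ∈ S, (Q i).sum = ∑ i ∈ S, c i * d := by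
        rw [← Finset.sum_add_distrib]
        refine Finset.sum_congr rfl fun i hi => ?_
        have := hTd i hi
        omega
      rw [h9, ← Finset.sum_mul, ← hR] at h12
      omega
    rw [h7, h8, ← Multiset.filter_eq']
    conv_lhs => rw [← Multiset.filter_add_not (fun l => l ≠ L) R]
    congr 1
    refine Multiset.filter_congr fun x _ => ?_
    rw [not_not]

end Pool.Agent.X285.FS
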