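import Mathlib
import Pool.Agent.X285.FS.Comb

/-!
# The group theory
-/

set_option autoImplicit false
set_option linter.all false

namespace Pool.Agent.X285.FS

open Equiv Function

section

variable {G : Type} [Group G] [Finite G] {n : ℕ} (φ : G →* Perm (Fin n))

/-- the big group -/
abbrev Big (G : Type) (n : ℕ) : Type := G × Perm (Fin n) × Perm (Fin n)

/-- the embedding -/
def io : G →* Big G n := (MonoidHom.id G).prod (φ.prod 1)

theorem io_apply (g : G) : io φ g = (g, φ g, 1) := rfl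

theorem io_inj : Injective (io φ) := fun a b h => congrArg Prod.fst h

theorem period_iter {Γ : Type} [Group Γ] (H : Subgroup Γ) (σ γ : Γ) (k : ℕ) :
    IsPeriodicPt (fun y : Γ ⧸ H => σ • y) k (γ : Γ ⧸ H) ↔ γ⁻¹ * σ ^ k * γ ∈ H := by
  have h1 : (fun y : Γ ⧸ H => σ • y)^[k] (γ : Γ ⧸ H) = ((σ ^ k * γ : Γ) : Γ ⧸ H) := by
    rw [smul_iterate]
    rfl
  rw [IsPeriodicPt, IsFixedPt, h1, eq_comm, QuotientGroup.eq, mul_assoc]

theorem conj_count (hφ : Injective φ) (τ : Big G n) (u : G) (hu : u ≠ 1) :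
    (n - 1) * Nat.card {γ : Big G n // γ⁻¹ * τ * γ = io φ u} ≤ Nat.card (Big G n) := by
  have h1 : φ u ≠ 1 := fun h => hu (hφ (h.trans (map_one φ).symm))
  obtain ⟨a, ha⟩ : ∃ a, φ u a ≠ a := by
    by_contra h
    push Not at h
    exact h1 (Equiv.ext h)
  have h2 : n - 1 = Nat.card {c : Fin n // c ≠ a} := by
    rw [Nat.card_eq_fintype_card, Fintype.card_subtype_compl, Fintype.card_subtype_eq,
      Fintype.card_fin]
  rw [h2, ← Nat.card_prod]
  refine Nat.card_le_card_of_injective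
    (fun x : {c : Fin n // c ≠ a} × {γ : Big G n // γ⁻¹ * τ * γ = io φ u} =>
      ((x.2.1.1, x.2.1.2.1 * swap (φ u a) x.1.1, x.2.1.2.2) : Big G n)) ?_
  rintro ⟨⟨c, hc⟩, ⟨γ, hγ⟩⟩ ⟨⟨c', hc'⟩, ⟨γ', hγ'⟩⟩ h
  simp only [Prod.mk.injEq] at h
  obtain ⟨e1, e2, e3⟩ := h
  have key : ∀ (c : Fin n) (hc : c ≠ a) (γ : Big G n) (hγ : γ⁻¹ * τ * γ = io φ u),
      ((γ.2.1 * swap (φ u a) c)⁻¹ * τ.2.1 * (γ.2.1 * swap (φ u a) c)) a = c := by
    intro c hc γ hγ
    have h3 : γ.2.1⁻¹ * τ.2.1 * γ.2.1 = φ u := congrArg (fun z : Big G n => z.2.1) hγ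
    have h4 : (γ.2.1 * swap (φ u a) c)⁻¹ * τ.2.1 * (γ.2.1 * swap (φ u a) c) =
        (swap (φ u a) c)⁻¹ * (γ.2.1⁻¹ * τ.2.1 * γ.2.1) * swap (φ u a) c := by group
    rw [h4, h3, swap_inv, Perm.mul_apply, Perm.mul_apply, swap_apply_of_ne_of_ne ha.symm hc.symm,
      swap_apply_left]
  have h5 : c = c' := by
    rw [← key c hc γ hγ, ← key c' hc' γ' hγ', e2]
  subst h5
  have h6 : γ = γ' := by
    refine Prod.ext e1 (Prod.ext ?_ e3)
    exact mul_right_cancel e2
  subst h6
  rfl

variable (U V : Subgroup G)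

/-- the subgroup -/
def UU : Subgroup (Big G n) := U.map (io φ)

theorem card_UU : Nat.card (UU φ U) = Nat.card U :=
  (Nat.card_congr (U.equivMapOfInjective (io φ) (io_inj φ)).toEquiv).symm

/-- The number of non-generic cosets. -/
theorem nongen (hφ : Injective φ) (σ : Big G n) :
    (n - 1) * Nat.card {x : Big G n ⧸ UU φ U // minimalPeriod (fun y => σ • y) x ≠ orderOf σ} ≤
      Nat.card U * Nat.card (Big G n) := by
  classical
  have := Fintype.ofFinite (Big G n)
  have := Fintype.ofFinite G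
  set T : Finset (Big G n) := Finset.univ.filter (fun τ => τ ∈ Subgroup.zpowers σ ∧
    τ ^ Nat.card U = 1) with hT
  set Us : Finset G := Finset.univ.filter (fun u => u ∈ U ∧ u ≠ 1) with hUs
  set Bad : Finset (Big G n) := (T ×ˢ Us).biUnion
    (fun q => Finset.univ.filter (fun γ => γ⁻¹ * q.1 * γ = io φ q.2)) with hBad
  have hTc : T.card ≤ Nat.card U := by
    have h1 : T = ((Finset.univ.filter (fun τ : Subgroup.zpowers σ => τ ^ Nat.card U = 1)).map
        ⟨Subtype.val, Subtype.val_injective⟩) := by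
      ext τ
      simp only [hT, Finset.mem_filter, Finset.mem_univ, true_and, Finset.mem_map,
        Function.Embedding.coeFn_mk, Subtype.exists, exists_and_right, exists_eq_right]
      constructor
      · rintro ⟨h1, h2⟩
        exact ⟨h1, Subtype.ext h2⟩
      · rintro ⟨h1, h2⟩
        exact ⟨h1, congrArg Subtype.val h2⟩
    rw [h1, Finset.card_map]
    exact IsCyclic.card_pow_eq_one_le Nat.card_pos
  have hUsc : Us.card ≤ Nat.card U := by
    rw [Nat.card_eq_fintype_card, Fintype.card_subtype]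
    refine Finset.card_le_card fun u hu => ?_
    rw [hUs, Finset.mem_filter] at hu
    rw [Finset.mem_filter]
    exact ⟨Finset.mem_univ _, hu.2.1⟩
  have hBadc : (n - 1) * Bad.card ≤ Nat.card U * Nat.card U * Nat.card (Big G n) := by
    have h1 : Bad.card ≤ ∑ q ∈ T ×ˢ Us,
        (Finset.univ.filter (fun γ : Big G n => γ⁻¹ * q.1 * γ = io φ q.2)).card :=
      Finset.card_biUnion_le
    refine (Nat.mul_le_mul_left _ h1).trans ?_
    rw [Finset.mul_sum]
    refine (Finset.sum_le_card_nsmul (T ×ˢ Us) _ (Nat.card (Big G n)) ?_).trans ?_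
    · rintro ⟨τ, u⟩ hq
      have hq2 := (Finset.mem_product.1 hq).2
      rw [hUs, Finset.mem_filter] at hq2
      have h2 := conj_count φ hφ τ u hq2.2.2
      rw [Nat.card_eq_fintype_card (α := {γ : Big G n // γ⁻¹ * τ * γ = io φ u}),
        Fintype.card_subtype] at h2
      exact h2
    · rw [smul_eq_mul, Finset.card_product]
      exact Nat.mul_le_mul_right _ (Nat.mul_le_mul hTc hUsc)
  have hinj : Nat.card {x : Big G n ⧸ UU φ U // minimalPeriod (fun y => σ • y) x ≠ orderOf σ} *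
      Nat.card U ≤ Bad.card := by
    rw [← card_UU φ U, ← Nat.card_prod, ← Fintype.card_coe, ← Nat.card_eq_fintype_card]
    have hmem : ∀ q : {x : Big G n ⧸ UU φ U // minimalPeriod (fun y => σ • y) x ≠ orderOf σ} ×
        (UU φ U), q.1.1.out * q.2.1 ∈ Bad := by
      rintro ⟨⟨x, hx⟩, ⟨u', hu'⟩⟩
      set γ : Big G n := x.out * u' with hγ
      have hγx : (γ : Big G n ⧸ UU φ U) = x := by
        rw [hγ, QuotientGroup.mk_mul_of_mem _ hu']
        exact Quotient.out_eq' x
      set k := minimalPeriod (fun y => σ • y) x with hk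
      have h1 : γ⁻¹ * σ ^ k * γ ∈ UU φ U := by
        rw [← period_iter, hγx]
        exact isPeriodicPt_minimalPeriod _ _
      have hne : σ ^ k ≠ 1 := by
        intro h
        apply hx
        refine Nat.dvd_antisymm ?_ (orderOf_dvd_of_pow_eq_one h)
        refine IsPeriodicPt.minimalPeriod_dvd ?_
        rw [← hγx, period_iter, pow_orderOf_eq_one, mul_one, inv_mul_cancel]
        exact Subgroup.one_mem _
      obtain ⟨u, hu, hu2⟩ := h1
      have hu1 : u ≠ 1 := by
        rintro rfl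
        rw [map_one] at hu2
        apply hne
        have h3 : σ ^ k = γ * (γ⁻¹ * σ ^ k * γ) * γ⁻¹ := by group
        rw [h3, ← hu2, mul_one, mul_inv_cancel]
      rw [hBad, Finset.mem_biUnion]
      refine ⟨(σ ^ k, u), ?_, ?_⟩
      · rw [Finset.mem_product, hT, hUs, Finset.mem_filter, Finset.mem_filter]
        refine ⟨⟨Finset.mem_univ _, Subgroup.pow_mem _ (Subgroup.mem_zpowers σ) _, ?_⟩,
          Finset.mem_univ _, hu, hu1⟩
        have h3 : σ ^ k = γ * io φ u * γ⁻¹ := by
          rw [hu2]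
          group
        have h4 : u ^ Nat.card U = 1 := by
          have h5 : (⟨u, hu⟩ : U) ^ Nat.card U = 1 := pow_card_eq_one'
          exact congrArg Subtype.val h5
        change (σ ^ k) ^ Nat.card U = 1
        rw [h3, conj_pow, ← map_pow, h4, map_one, mul_one, mul_inv_cancel]
      · rw [Finset.mem_filter]
        exact ⟨Finset.mem_univ _, hu2.symm⟩
    refine Nat.card_le_card_of_injective (fun q => (⟨q.1.1.out * q.2.1, hmem q⟩ : Bad)) ?_
    rintro ⟨⟨x, hx⟩, ⟨u, hu⟩⟩ ⟨⟨x', hx'⟩, ⟨u', hu'⟩⟩ h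
    have h1 : x.out * u = x'.out * u' := congrArg Subtype.val h
    have h2 : x = x' := by
      have h3 := congrArg (fun z : Big G n => (z : Big G n ⧸ UU φ U)) h1
      simp only [QuotientGroup.mk_mul_of_mem _ hu, QuotientGroup.mk_mul_of_mem _ hu'] at h3
      rw [← Quotient.out_eq' x, ← Quotient.out_eq' x']
      exact h3
    subst h2
    have h3 : u = u' := mul_left_cancel h1
    subst h3
    rfl
  have hU : 0 < Nat.card U := Nat.card_pos
  have h3 := (Nat.mul_le_mul_left (n - 1) hinj).trans hBadc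
  refine Nat.le_of_mul_le_mul_right ?_ hU
  calc _ = (n - 1) * (Nat.card {x : Big G n ⧸ UU φ U // minimalPeriod (fun y => σ • y) x ≠
      orderOf σ} * Nat.card U) := by ring
    _ ≤ _ := h3
    _ = _ := by ring

end

end Pool.Agent.X285.FS
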