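import Mathlib
import Pool.Agent.X285.FS.Grp

/-!
# The group theory, second part
-/

set_option autoImplicit false
set_option linter.all false

namespace Pool.Agent.X285.FS

open Equiv Function

theorem card_sat {Γ : Type} [Group Γ] [Finite Γ] (H : Subgroup Γ) (P : Γ → Prop)
    (hP : ∀ γ, ∀ h ∈ H, P (γ * h) ↔ P γ) :
    Nat.card {γ // P γ} = Nat.card {x : Γ ⧸ H // P x.out} * Nat.card H := by
  rw [← Nat.card_prod]
  refine (Nat.card_congr (Equiv.ofBijective
    (fun q : {x : Γ ⧸ H // P x.out} × H => (⟨q.1.1.out * q.2, (hP _ _ q.2.2).2 q.1.2⟩ : {γ // P γ}))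
    ⟨?_, ?_⟩)).symm
  · rintro ⟨⟨x, hx⟩, ⟨u, hu⟩⟩ ⟨⟨x', hx'⟩, ⟨u', hu'⟩⟩ h
    have h1 : x.out * u = x'.out * u' := congrArg Subtype.val h
    have h2 : x = x' := by
      have h3 := congrArg (fun z : Γ => (z : Γ ⧸ H)) h1
      simp only [QuotientGroup.mk_mul_of_mem _ hu, QuotientGroup.mk_mul_of_mem _ hu'] at h3
      rw [← Quotient.out_eq' x, ← Quotient.out_eq' x']
      exact h3
    subst h2
    have h3 : u = u' := mul_left_cancel h1
    subst h3
    rfl
  · rintro ⟨γ, hγ⟩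
    have h1 : ((γ : Γ ⧸ H).out)⁻¹ * γ ∈ H := by
      rw [← QuotientGroup.eq]
      exact Quotient.out_eq' _
    have h2 : (γ : Γ ⧸ H).out * (((γ : Γ ⧸ H).out)⁻¹ * γ) = γ := by group
    refine ⟨⟨⟨(γ : Γ ⧸ H), ?_⟩, ⟨_, h1⟩⟩, Subtype.ext h2⟩
    rw [← hP _ _ h1, h2]
    exact hγ

theorem sum_le_of_count {X : Type} [Finite X] (m : X → ℕ) (R : Multiset ℕ)
    (hR : ∀ l, l * R.count l = Nat.card {x : X // m x = l}) (P : ℕ → Prop) [DecidablePred P] :
    (R.filter P).sum ≤ Nat.card {x : X // P (m x)} := by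
  classical
  have := Fintype.ofFinite X
  rw [Finset.sum_multiset_count]
  have h1 : ∀ l ∈ (R.filter P).toFinset, (R.filter P).count l • l =
      (Finset.univ.filter (fun x : X => m x = l)).card := by
    intro l hl
    rw [Multiset.mem_toFinset, Multiset.mem_filter] at hl
    rw [Multiset.count_filter_of_pos hl.2, smul_eq_mul, mul_comm, hR, Nat.card_eq_fintype_card,
      Fintype.card_subtype]
  rw [Finset.sum_congr rfl h1, ← Finset.card_biUnion, Nat.card_eq_fintype_card,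
    Fintype.card_subtype]
  · refine Finset.card_le_card fun x hx => ?_
    rw [Finset.mem_biUnion] at hx
    obtain ⟨l, hl, hx⟩ := hx
    rw [Multiset.mem_toFinset, Multiset.mem_filter] at hl
    rw [Finset.mem_filter] at hx ⊢
    rw [hx.2]
    exact ⟨Finset.mem_univ _, hl.2⟩
  · intro a _ b _ hab
    refine Finset.disjoint_left.2 ?_
    intro x h2 h3
    rw [Finset.mem_filter] at h2 h3
    exact hab (h2.2.symm.trans h3.2)

section

variable {G : Type} [Group G] [Finite G] {n : ℕ} (φ : G →* Perm (Fin n))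
variable (U V : Subgroup G)

/-- the bigger subgroup -/
def UW : Subgroup (Big G n) where
  carrier := {γ | γ.1 ∈ U ∧ γ.2.1 = φ γ.1}
  one_mem' := ⟨U.one_mem, (map_one φ).symm⟩
  mul_mem' := fun {a b} ha hb => ⟨U.mul_mem ha.1 hb.1, by
    change a.2.1 * b.2.1 = φ (a.1 * b.1)
    rw [ha.2, hb.2, map_mul]⟩
  inv_mem' := fun {a} ha => ⟨U.inv_mem ha.1, by
    change a.2.1⁻¹ = φ a.1⁻¹
    rw [ha.2, map_inv]⟩

theorem card_UW : Nat.card (UW φ U) = Nat.card U * Nat.card (Perm (Fin n)) := by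
  rw [← Nat.card_prod]
  exact Nat.card_congr
    { toFun := fun γ => (⟨γ.1.1, γ.2.1⟩, γ.1.2.2)
      invFun := fun q => ⟨(q.1.1, φ q.1.1, q.2), q.1.2, rfl⟩
      left_inv := by
        rintro ⟨⟨a, b, c⟩, h1, h2⟩
        have h3 : b = φ a := h2
        subst h3
        rfl
      right_inv := fun q => rfl }

theorem mem_UU {γ : Big G n} : γ ∈ UU φ U ↔ γ.1 ∈ U ∧ γ.2.1 = φ γ.1 ∧ γ.2.2 = 1 := by
  constructor
  · rintro ⟨u, hu, rfl⟩
    exact ⟨hu, rfl, rfl⟩
  · rintro ⟨h1, h2, h3⟩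
    refine ⟨γ.1, h1, ?_⟩
    exact Prod.ext rfl (Prod.ext h2.symm h3.symm)

theorem UW_conj {δ γ : Big G n} (hδ : δ ∈ UW φ U) : δ⁻¹ * γ * δ ∈ UU φ U ↔ γ ∈ UU φ U := by
  have key : ∀ (δ : Big G n), δ ∈ UW φ U → ∀ γ, γ ∈ UU φ U → δ⁻¹ * γ * δ ∈ UU φ U := by
    rintro δ hδ γ hγ
    rw [mem_UU] at hγ ⊢
    have hδ1 : δ.1 ∈ U := hδ.1
    have hδ2 : δ.2.1 = φ δ.1 := hδ.2
    refine ⟨U.mul_mem (U.mul_mem (U.inv_mem hδ1) hγ.1) hδ1, ?_, ?_⟩
    · change δ.2.1⁻¹ * γ.2.1 * δ.2.1 = φ (δ.1⁻¹ * γ.1 * δ.1)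
      rw [map_mul, map_mul, map_inv, hδ2, hγ.2.1]
    · change δ.2.2⁻¹ * γ.2.2 * δ.2.2 = 1
      rw [hγ.2.2, mul_one, inv_mul_cancel]
  constructor
  · intro h
    have h1 := key δ⁻¹ (inv_mem hδ) _ h
    have h2 : δ⁻¹⁻¹ * (δ⁻¹ * γ * δ) * δ⁻¹ = γ := by group
    rwa [h2] at h1
  · exact key δ hδ γ

/-- The number of cosets of given period is a multiple of `n!`. -/
theorem dvd_period (σ : Big G n) (l : ℕ) :
    Nat.card (Perm (Fin n)) ∣
      Nat.card {x : Big G n ⧸ UU φ U // minimalPeriod (fun y => σ • y) x = l} := by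
  set P : Big G n → Prop := fun γ => minimalPeriod (fun y => σ • y) (γ : Big G n ⧸ UU φ U) = l
    with hPdef
  have h1 := card_sat (UU φ U) P (fun γ h hh => by
    simp only [hPdef, QuotientGroup.mk_mul_of_mem _ hh])
  have h2 := card_sat (UW φ U) P (fun γ h hh => by
    have h3 : ∀ k, IsPeriodicPt (fun y : Big G n ⧸ UU φ U => σ • y) k
        ((γ * h : Big G n) : Big G n ⧸ UU φ U) ↔
        IsPeriodicPt (fun y : Big G n ⧸ UU φ U => σ • y) k (γ : Big G n ⧸ UU φ U) := by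
      intro k
      rw [period_iter, period_iter, ← UW_conj φ U (γ := γ⁻¹ * σ ^ k * γ) hh]
      have h4 : (γ * h)⁻¹ * σ ^ k * (γ * h) = h⁻¹ * (γ⁻¹ * σ ^ k * γ) * h := by group
      rw [h4]
    have h4 : minimalPeriod (fun y : Big G n ⧸ UU φ U => σ • y)
        ((γ * h : Big G n) : Big G n ⧸ UU φ U) =
        minimalPeriod (fun y : Big G n ⧸ UU φ U => σ • y) (γ : Big G n ⧸ UU φ U) :=
      Nat.dvd_antisymm
        (((h3 _).2 (isPeriodicPt_minimalPeriod _ _)).minimalPeriod_dvd)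
        (((h3 _).1 (isPeriodicPt_minimalPeriod _ _)).minimalPeriod_dvd)
    simp only [hPdef, h4])
  have h3 : Nat.card {x : Big G n ⧸ UU φ U // P x.out} =
      Nat.card {x : Big G n ⧸ UU φ U // minimalPeriod (fun y => σ • y) x = l} := by
    refine Nat.card_congr (Equiv.subtypeEquivRight fun x => ?_)
    simp only [hPdef, QuotientGroup.out_eq']
  rw [h3, h2, card_UU, card_UW, ← mul_assoc] at h1
  have hU : 0 < Nat.card U := Nat.card_pos
  refine ⟨Nat.card {x : Big G n ⧸ UW φ U // P x.out}, ?_⟩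
  refine Nat.eq_of_mul_eq_mul_right hU ?_
  rw [← h1]
  ring

theorem order_dvd (hn : Nat.card G ≤ n) (σ : Big G n) : orderOf σ ∣ Nat.card (Perm (Fin n)) := by
  have h1 : Nat.card (Perm (Fin n)) = n.factorial := by
    rw [Nat.card_eq_fintype_card, Fintype.card_perm, Fintype.card_fin]
  rw [Prod.orderOf, Prod.orderOf]
  refine Nat.lcm_dvd ?_ (Nat.lcm_dvd (orderOf_dvd_natCard _) (orderOf_dvd_natCard _))
  rw [h1]
  refine Nat.dvd_factorial (orderOf_pos _) (le_trans ?_ hn)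
  exact Nat.le_of_dvd Nat.card_pos (orderOf_dvd_natCard _)

/-- the quotient of the degrees -/
noncomputable def dd (n : ℕ) : ℕ := Nat.card V * (n.factorial / Nat.card U) * n.factorial

theorem card_U_dvd (hn : Nat.card G ≤ n) : Nat.card U ∣ n.factorial :=
  Nat.dvd_factorial Nat.card_pos
    ((Nat.le_of_dvd Nat.card_pos (Subgroup.card_subgroup_dvd_card U)).trans hn)

theorem dd_mul (hn : Nat.card G ≤ n) :
    dd U V n * Nat.card U = Nat.card V * n.factorial * n.factorial := by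
  have h := Nat.div_mul_cancel (card_U_dvd U hn)
  rw [dd]
  calc _ = Nat.card V * (n.factorial / Nat.card U * Nat.card U) * n.factorial := by ring
    _ = _ := by rw [h]

theorem card_Big : Nat.card (Big G n) = Nat.card G * (n.factorial * n.factorial) := by
  rw [Nat.card_prod, Nat.card_prod, Nat.card_eq_fintype_card (α := Perm (Fin n)),
    Fintype.card_perm, Fintype.card_fin]

theorem index_UU (hn : Nat.card G ≤ n) : (UU φ U).index = V.index * dd U V n := by
  have h1 := Subgroup.index_mul_card (UU φ U)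
  rw [card_UU, card_Big] at h1
  have h2 := Subgroup.index_mul_card V
  have hU : 0 < Nat.card U := Nat.card_pos
  refine Nat.eq_of_mul_eq_mul_right hU ?_
  rw [h1, mul_assoc, dd_mul U V hn, ← h2]
  ring

/-- The group theoretic result. -/
theorem grp_comb (hUV : ∀ u ∈ U, ∃ g : G, g⁻¹ * u * g ∈ V) (hφ : Injective φ)
    (hn : Nat.card G ^ 3 < n) (σ : Big G n)
    {I : Type} [DecidableEq I] (S : Finset I) (c : I → ℕ) (hc0 : ∀ i ∈ S, 0 < c i)
    (hc : ∀ l, l * (S.val.map c).count l =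
      Nat.card {x : G ⧸ V // minimalPeriod (fun y => σ.1 • y) x = l})
    (hcs : ∑ i ∈ S, c i = V.index)
    (R : Multiset ℕ) (hR0 : 0 ∉ R)
    (hR : ∀ l, l * R.count l =
      Nat.card {x : Big G n ⧸ UU φ U // minimalPeriod (fun y => σ • y) x = l})
    (hRs : R.sum = (UU φ U).index) :
    ∃ e : I → Multiset ℕ, (∀ i ∈ S, 0 ∉ e i ∧ (e i).sum = dd U V n) ∧
      R = ∑ i ∈ S, (e i).map (fun a => c i * a) := by
  have hGpos : 0 < Nat.card G := Nat.card_pos
  have hn1 : Nat.card G ≤ n := by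
    have : Nat.card G ≤ Nat.card G ^ 3 := Nat.le_self_pow (by norm_num) _
    omega
  have hLd := order_dvd hn1 σ
  have hW : Nat.card (Perm (Fin n)) = n.factorial := by
    rw [Nat.card_eq_fintype_card, Fintype.card_perm, Fintype.card_fin]
  have hU : 0 < Nat.card U := Nat.card_pos
  have hV : 0 < Nat.card V := Nat.card_pos
  have hpt : ∀ l, (∃ i ∈ S, c i = l) ↔
      ∃ x : G ⧸ V, minimalPeriod (fun y => σ.1 • y) x = l := by
    intro l
    have h1 := hc l
    constructor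
    · rintro ⟨i, hi, rfl⟩
      have h2 : 0 < (S.val.map c).count (c i) :=
        Multiset.count_pos.2 (Multiset.mem_map_of_mem _ hi)
      have h3 : 0 < Nat.card {x : G ⧸ V // minimalPeriod (fun y => σ.1 • y) x = c i} := by
        rw [← h1]
        exact Nat.mul_pos (hc0 i hi) h2
      obtain ⟨⟨x, hx⟩⟩ := (Nat.card_pos_iff.1 h3).1
      exact ⟨x, hx⟩
    · rintro ⟨x, hx⟩
      have h3 : 0 < Nat.card {x : G ⧸ V // minimalPeriod (fun y => σ.1 • y) x = l} := by
        rw [Nat.card_pos_iff]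
        exact ⟨⟨⟨x, hx⟩⟩, inferInstance⟩
      rw [← h1] at h3
      have h4 := Multiset.count_pos.1 (Nat.pos_of_mul_pos_left h3)
      obtain ⟨i, hi, hi2⟩ := Multiset.mem_map.1 h4
      exact ⟨i, hi, hi2⟩
  refine comb S c hc0 R hR0 (dd U V n) (orderOf σ) (orderOf_pos σ) ?_ ?_ ?_ ?_ ?_ ?_
  · rw [hRs, hcs, index_UU φ U V hn1]
  · intro i hi
    obtain ⟨x, hx⟩ := (hpt _).1 ⟨i, hi, rfl⟩
    rw [← hx]
    refine IsPeriodicPt.minimalPeriod_dvd ?_
    induction x using QuotientGroup.induction_on with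
    | H g =>
      rw [period_iter]
      have h2 : σ.1 ^ orderOf σ = 1 := congrArg Prod.fst (pow_orderOf_eq_one σ)
      rw [h2, mul_one, inv_mul_cancel]
      exact V.one_mem
  · intro l hl _
    have h1 := hR l
    have h2 : 0 < R.count l := Multiset.count_pos.2 hl
    have hl0 : 0 < l := Nat.pos_of_ne_zero (fun h => hR0 (h ▸ hl))
    have h3 : 0 < Nat.card {x : Big G n ⧸ UU φ U // minimalPeriod (fun y => σ • y) x = l} := by
      rw [← h1]
      exact Nat.mul_pos hl0 h2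
    obtain ⟨⟨x, hx⟩⟩ := (Nat.card_pos_iff.1 h3).1
    induction x using QuotientGroup.induction_on with
    | H γ =>
      have h4 : γ⁻¹ * σ ^ l * γ ∈ UU φ U := by
        rw [← period_iter, ← hx]
        exact isPeriodicPt_minimalPeriod _ _
      have h5 := ((mem_UU φ U).1 h4).1
      obtain ⟨g, hg⟩ := hUV _ h5
      have h6 : IsPeriodicPt (fun y : G ⧸ V => σ.1 • y) l ((γ.1 * g : G) : G ⧸ V) := by
        rw [period_iter]
        have h7 : (γ.1 * g)⁻¹ * σ.1 ^ l * (γ.1 * g) = g⁻¹ * (γ⁻¹ * σ ^ l * γ).1 * g := by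
          change _ = g⁻¹ * (γ.1⁻¹ * σ.1 ^ l * γ.1) * g
          group
        rw [h7]
        exact hg
      obtain ⟨i, hi, hi2⟩ := (hpt _).2 ⟨((γ.1 * g : G) : G ⧸ V), rfl⟩
      exact ⟨i, hi, hi2 ▸ h6.minimalPeriod_dvd⟩
  · intro l _
    rw [hR]
    exact hLd.trans (dvd_period φ U σ l)
  · rw [hW] at hLd
    exact hLd.trans (Dvd.intro_left _ rfl)
  · refine (sum_le_of_count _ R hR (fun l => l ≠ orderOf σ)).trans ?_
    have h1 := nongen φ U hφ σ
    set N := Nat.card {x : Big G n ⧸ UU φ U // minimalPeriod (fun y => σ • y) x ≠ orderOf σ}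
      with hN
    have h2 := dd_mul U V hn1
    have h3 : n.factorial * n.factorial ≤ dd U V n * Nat.card U := by
      rw [h2, mul_assoc]
      exact Nat.le_mul_of_pos_left _ hV
    have h4 : Nat.card U ≤ Nat.card G :=
      Nat.le_of_dvd Nat.card_pos (Subgroup.card_subgroup_dvd_card U)
    have h5 : (n - 1) * N ≤ (n - 1) * dd U V n := by
      calc (n - 1) * N ≤ Nat.card U * Nat.card (Big G n) := h1
        _ = Nat.card U * Nat.card G * (n.factorial * n.factorial) := by rw [card_Big]; ring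
        _ ≤ Nat.card U * Nat.card G * (dd U V n * Nat.card U) := Nat.mul_le_mul_left _ h3
        _ = (Nat.card U * Nat.card G * Nat.card U) * dd U V n := by ring
        _ ≤ (Nat.card G * Nat.card G * Nat.card G) * dd U V n :=
          Nat.mul_le_mul_right _ (Nat.mul_le_mul (Nat.mul_le_mul_right _ h4) h4)
        _ = Nat.card G ^ 3 * dd U V n := by ring
        _ ≤ (n - 1) * dd U V n := Nat.mul_le_mul_right _ (by omega)
    have h6 : 0 < n - 1 := by
      have : 0 < Nat.card G ^ 3 := pow_pos hGpos 3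
      omega
    exact Nat.le_of_mul_le_mul_left h5 h6

end

end Pool.Agent.X285.FS
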