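import Mathlib

/-!
# Fake subfields: definitions
-/

set_option autoImplicit false

open NumberField Module

namespace Pool.Agent.X285.FS

/-- The restriction of automorphisms along `i : Ω → M` has a section `s` with normal image: `s` is a
homomorphism from the automorphism group of `Ω` to that of `M`, and `s g` restricts to `g`. -/
def SplitsAlong {Ω M : Type} [Field Ω] [Field M] [Algebra ℚ Ω] [Algebra ℚ M] (i : Ω →ₐ[ℚ] M) :
    Prop :=
  ∃ s : (Ω ≃ₐ[ℚ] Ω) →* (M ≃ₐ[ℚ] M), s.range.Normal ∧
    ∀ (g : Ω ≃ₐ[ℚ] Ω) (x : Ω), s g (i x) = i (g x)

section

variable (E : Type) [Field E] [NumberField E] (p : ℕ)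

/-- The primes of `E` above `p`. -/
noncomputable def primesAbove : Finset (Ideal (𝓞 E)) :=
  IsDedekindDomain.primesOverFinset (Ideal.span {(p : ℤ)}) (𝓞 E)

/-- The residue degrees of the primes of `E` above `p`, with multiplicity. -/
noncomputable def resDegs : Multiset ℕ := (primesAbove E p).val.map fun P => P.inertiaDeg ℤ

/-- The prime `p` is unramified in `E`. -/
def Unram : Prop := ∀ P ∈ primesAbove E p, P.ramificationIdx ℤ = 1

end

/-- The residue degrees of the primes of `F` above `p` refine those of the primes of `K`: for every
prime `P` of `K` above `p` there are positive integers (the multiset `e P`) with sum `d`, such that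
the residue degrees of the primes of `F` above `p` are the products of the residue degree of `P` and
the members of `e P`, with multiplicity. -/
def Refines (K F : Type) [Field K] [NumberField K] [Field F] [NumberField F] (p d : ℕ) : Prop :=
  ∃ e : Ideal (𝓞 K) → Multiset ℕ,
    (∀ P ∈ primesAbove K p, 0 ∉ e P ∧ (e P).sum = d) ∧
    resDegs F p = ∑ P ∈ primesAbove K p, (e P).map fun a => P.inertiaDeg ℤ * a

/-- `K` is locally sub-`F`: the degree of `K` divides that of `F`, with quotient `d`, and for every
prime `p` unramified in both fields the residue degrees of `F` refine those of `K`. -/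
def LocallySub (K F : Type) [Field K] [NumberField K] [Field F] [NumberField F] : Prop :=
  ∃ d : ℕ, finrank ℚ F = finrank ℚ K * d ∧
    ∀ p : ℕ, p.Prime → Unram K p → Unram F p → Refines K F p d

/-- A fixed algebraic closure of the rational numbers. -/
abbrev QB : Type := AlgebraicClosure ℚ

/-- `K` is not contained in a conjugate of `F`. -/
def NotInConjugate (K F : IntermediateField ℚ QB) : Prop :=
  ∀ σ : QB ≃ₐ[ℚ] QB, ¬ K ≤ F.map σ.toAlgHom

/-- `K` is a fake subfield of `F`: it is locally sub-`F` but not contained in a conjugate of `F`. -/
def IsFake (K F : IntermediateField ℚ QB) [NumberField K] [NumberField F] : Prop :=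
  LocallySub K F ∧ NotInConjugate K F

/-- `K` is a fake subfield of some number field. -/
def IsFakeOfSome (K : IntermediateField ℚ QB) [NumberField K] : Prop :=
  ∃ (F : IntermediateField ℚ QB) (_ : NumberField F), IsFake K F

/-- The Galois closure of a subfield. -/
noncomputable def galClosure (K : IntermediateField ℚ QB) : IntermediateField ℚ QB :=
  IntermediateField.normalClosure ℚ K QB

/-- The compositum `M_F` of the Galois closures of `K` and `F`. -/
noncomputable def compositum (K F : IntermediateField ℚ QB) : IntermediateField ℚ QB :=
  galClosure K ⊔ galClosure F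

/-- The inclusion of the Galois closure of `K` in the compositum. -/
noncomputable def incl (K F : IntermediateField ℚ QB) : galClosure K →ₐ[ℚ] compositum K F :=
  IntermediateField.inclusion le_sup_left

/-- The extension `1 → N_F → Γ_F → G → 1` splits, as a direct product: the restriction from the
Galois group of `M_F` to that `G` of the Galois closure of `K` has a section whose image is
normal. -/
def SplitsDirectly (K F : IntermediateField ℚ QB) : Prop := SplitsAlong (incl K F)

/-- `K` is a fake subfield of a number field `F` for which the extension splits directly. -/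
def HasSplitRealization (K : IntermediateField ℚ QB) [NumberField K] : Prop :=
  ∃ (F : IntermediateField ℚ QB) (_ : NumberField F), IsFake K F ∧ SplitsDirectly K F

end Pool.Agent.X285.FS
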