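import Mathlib
import Pool.Agent.W54.Cheb.Tor
import Pool.Agent.X285.FS.Defs

/-!
# Residue degrees of primes and homomorphisms to the algebraic closure of `F_p`
-/

set_option autoImplicit false
set_option linter.all false

namespace Pool.Agent.X285.FS

open NumberField Module


variable {E : Type} [Field E] [NumberField E] {p : ℕ} [hp : Fact p.Prime]

theorem span_ne_bot : Ideal.span {(p : ℤ)} ≠ ⊥ := by
  rw [Ne, Ideal.span_singleton_eq_bot]
  exact_mod_cast hp.out.ne_zero

instance span_max : (Ideal.span {(p : ℤ)}).IsMaximal :=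
  Int.ideal_span_isMaximal_of_prime p

theorem mem_above {P : Ideal (𝓞 E)} :
    P ∈ primesAbove E p ↔ P.IsPrime ∧ P.LiesOver (Ideal.span {(p : ℤ)}) := by
  rw [primesAbove, IsDedekindDomain.mem_primesOverFinset_iff span_ne_bot]
  rfl

theorem above_max {P : Ideal (𝓞 E)} (hP : P ∈ primesAbove E p) : P.IsMaximal := by
  obtain ⟨h1, h2⟩ := mem_above.1 hP
  exact Ideal.IsMaximal.of_liesOver_isMaximal P (Ideal.span {(p : ℤ)})

theorem mem_above' {P : Ideal (𝓞 E)} (hP : P.IsPrime) (hp' : (p : 𝓞 E) ∈ P) :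
    P ∈ primesAbove E p := by
  rw [mem_above]
  refine ⟨hP, ⟨?_⟩⟩
  refine Ideal.IsMaximal.eq_of_le span_max (Ideal.IsPrime.under ℤ P).ne_top ?_
  rw [Ideal.span_singleton_le_iff_mem, Ideal.mem_comap]
  simpa using hp'

/-- the homomorphisms to the algebraic closure of `F_p` -/
abbrev Hm (E : Type) [Field E] [NumberField E] (p : ℕ) [Fact p.Prime] : Type :=
  𝓞 E →+* AlgebraicClosure (ZMod p)

instance charP_ac : CharP (AlgebraicClosure (ZMod p)) p :=
  charP_of_injective_algebraMap (algebraMap (ZMod p) _).injective p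

/-- Frobenius acts. -/
noncomputable def fr (ψ : Hm E p) : Hm E p := (frobenius (AlgebraicClosure (ZMod p)) p).comp ψ

theorem fr_apply (ψ : Hm E p) (x : 𝓞 E) : fr ψ x = ψ x ^ p := rfl

theorem fr_iter (ψ : Hm E p) (k : ℕ) (x : 𝓞 E) : (fr^[k] ψ) x = ψ x ^ p ^ k := by
  induction k with
  | zero => simp
  | succ k ih => rw [Function.iterate_succ_apply', fr_apply, ih, ← pow_mul, ← pow_succ]

theorem ker_mem (ψ : Hm E p) : RingHom.ker ψ ∈ primesAbove E p := by
  refine mem_above' (RingHom.ker_isPrime ψ) ?_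
  rw [RingHom.mem_ker, map_natCast, CharP.cast_eq_zero]

section quot

variable (P : Ideal (𝓞 E)) (hP : P ∈ primesAbove E p)

include hP in
theorem charP_quot : CharP (𝓞 E ⧸ P) p := by
  have h1 := above_max hP
  let _ : Field (𝓞 E ⧸ P) := Ideal.Quotient.field P
  refine (CharP.charP_iff_prime_eq_zero hp.out).mpr ?_
  obtain ⟨h2, h3⟩ := mem_above.1 hP
  have h4 : (p : ℤ) ∈ P.under ℤ := by
    rw [← h3.over]
    exact Ideal.mem_span_singleton_self _
  rw [Ideal.mem_comap] at h4
  have h5 := Ideal.Quotient.eq_zero_iff_mem.mpr h4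
  simpa using h5

include hP in
theorem finite_quot : Finite (𝓞 E ⧸ P) := by
  obtain ⟨h2, h3⟩ := mem_above.1 hP
  have h1 : P ≠ ⊥ := Ideal.ne_bot_of_mem_primesOver (p := Ideal.span {(p : ℤ)}) span_ne_bot ⟨h2, h3⟩
  exact Ideal.finiteQuotientOfFreeOfNeBot P h1

end quot

theorem finrank_quot (P : Ideal (𝓞 E)) (hP : P ∈ primesAbove E p) (h1 : P.IsMaximal) :
    letI : Field (𝓞 E ⧸ P) := Ideal.Quotient.field P
    letI := charP_quot P hP
    letI : Algebra (ZMod p) (𝓞 E ⧸ P) := ZMod.algebra _ p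
    finrank (ZMod p) (𝓞 E ⧸ P) = P.inertiaDeg ℤ := by
  letI : Field (𝓞 E ⧸ P) := Ideal.Quotient.field P
  letI := charP_quot P hP
  letI : Algebra (ZMod p) (𝓞 E ⧸ P) := ZMod.algebra _ p
  have := finite_quot P hP
  obtain ⟨h2, h3⟩ := mem_above.1 hP
  have e1 := Ideal.pow_inertiaDeg p P
  have e2 : Nat.card (𝓞 E ⧸ P) = p ^ finrank (ZMod p) (𝓞 E ⧸ P) := by
    rw [Module.natCard_eq_pow_finrank (K := ZMod p) (V := 𝓞 E ⧸ P), Nat.card_zmod]
  have e3 : Nat.card (𝓞 E ⧸ P) = Ideal.absNorm P := rfl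
  rw [e3, ← e1] at e2
  exact (Nat.pow_right_injective hp.out.two_le e2).symm

theorem period (ψ : Hm E p) (P : Ideal (𝓞 E)) (hψ : RingHom.ker ψ = P) :
    Function.minimalPeriod fr ψ = P.inertiaDeg ℤ := by
  subst hψ
  have hP := ker_mem ψ
  have h1 := above_max hP
  have h0 := finrank_quot _ hP h1
  letI : Field (𝓞 E ⧸ RingHom.ker ψ) := Ideal.Quotient.field _
  letI := charP_quot _ hP
  letI : Algebra (ZMod p) (𝓞 E ⧸ RingHom.ker ψ) := ZMod.algebra _ p
  have := finite_quot _ hP
  change finrank (ZMod p) (𝓞 E ⧸ RingHom.ker ψ) = _ at h0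
  rw [← h0, ← FiniteField.orderOf_frobeniusAlgHom]
  have key : ∀ k : ℕ, Function.IsPeriodicPt fr k ψ ↔
      (FiniteField.frobeniusAlgHom (ZMod p) (𝓞 E ⧸ RingHom.ker ψ)) ^ k = 1 := by
    intro k
    have hpow : ∀ y : 𝓞 E ⧸ RingHom.ker ψ,
        ((FiniteField.frobeniusAlgHom (ZMod p) (𝓞 E ⧸ RingHom.ker ψ)) ^ k) y = y ^ p ^ k := by
      intro y
      induction k with
      | zero => simp
      | succ k ih =>
        rw [pow_succ', AlgHom.mul_apply, ih, FiniteField.coe_frobeniusAlgHom, ZMod.card]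
        change (y ^ p ^ k) ^ p = y ^ p ^ (k + 1)
        rw [← pow_mul, ← pow_succ]
    constructor
    · intro h
      apply AlgHom.ext
      intro y
      obtain ⟨x, rfl⟩ := Ideal.Quotient.mk_surjective y
      rw [hpow, AlgHom.one_apply, ← map_pow, Ideal.Quotient.eq, RingHom.mem_ker, map_sub, map_pow,
        ← fr_iter, h.eq, sub_self]
    · intro h
      refine RingHom.ext fun x => ?_
      rw [fr_iter]
      have h2 := DFunLike.congr_fun h (Ideal.Quotient.mk _ x)
      rw [hpow, AlgHom.one_apply, ← map_pow, Ideal.Quotient.eq, RingHom.mem_ker, map_sub, map_pow,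
        sub_eq_zero] at h2
      exact h2
  refine Nat.dvd_antisymm ?_ ?_
  · exact (((key _).2 (pow_orderOf_eq_one _))).minimalPeriod_dvd
  · exact orderOf_dvd_of_pow_eq_one ((key _).1 (Function.isPeriodicPt_minimalPeriod _ _))

theorem fib_card (P : Ideal (𝓞 E)) (hP : P ∈ primesAbove E p) :
    Nat.card {ψ : Hm E p // RingHom.ker ψ = P} = P.inertiaDeg ℤ := by
  have h1 := above_max hP
  have h0 := finrank_quot _ hP h1
  letI : Field (𝓞 E ⧸ P) := Ideal.Quotient.field _
  letI := charP_quot _ hP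
  letI : Algebra (ZMod p) (𝓞 E ⧸ P) := ZMod.algebra _ p
  have := finite_quot _ hP
  change finrank (ZMod p) (𝓞 E ⧸ P) = _ at h0
  rw [← h0, ← AlgHom.card (ZMod p) (𝓞 E ⧸ P) (AlgebraicClosure (ZMod p)), ← Nat.card_eq_fintype_card]
  refine Nat.card_congr
    { toFun := fun ψ =>
        { Ideal.Quotient.lift P ψ.1 (fun a ha => by
            rw [← ψ.2] at ha
            exact ha) with
          commutes' := fun r => by
            obtain ⟨n, rfl⟩ := ZMod.intCast_surjective r
            simp }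
      invFun := fun f => ⟨(f : (𝓞 E ⧸ P) →+* _).comp (Ideal.Quotient.mk P), by
        ext x
        rw [RingHom.mem_ker, RingHom.comp_apply]
        constructor
        · intro h
          rw [← Ideal.Quotient.eq_zero_iff_mem]
          exact (f : (𝓞 E ⧸ P) →+* AlgebraicClosure (ZMod p)).injective (h.trans (map_zero _).symm)
        · intro h
          rw [Ideal.Quotient.eq_zero_iff_mem.2 h, map_zero]⟩
      left_inv := fun ψ => by
        apply Subtype.ext
        apply RingHom.ext
        intro x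
        rfl
      right_inv := fun f => by
        apply AlgHom.ext
        intro y
        obtain ⟨x, rfl⟩ := Ideal.Quotient.mk_surjective y
        rfl }

instance fin_Hm : Finite (Hm E p) := by
  have hfib : ∀ P : Ideal (𝓞 E), P ∈ primesAbove E p → Finite {ψ : Hm E p // RingHom.ker ψ = P} := by
    intro P hP
    refine Nat.finite_of_card_ne_zero ?_
    rw [fib_card P hP]
    have := (mem_above.1 hP).1
    exact (Ideal.inertiaDeg_pos P ℤ).ne'
  let f : Hm E p → Σ P : primesAbove E p, {ψ : Hm E p // RingHom.ker ψ = P.1} :=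
    fun ψ => ⟨⟨RingHom.ker ψ, ker_mem ψ⟩, ⟨ψ, rfl⟩⟩
  have := fun P : primesAbove E p => hfib P.1 P.2
  refine Finite.of_injective f ?_
  intro a b hab
  have h1 : ∀ (x y : Σ P : primesAbove E p, {ψ : Hm E p // RingHom.ker ψ = P.1}), x = y →
      x.2.1 = y.2.1 := by
    rintro x y rfl
    rfl
  exact h1 _ _ hab

/-- The number of homomorphisms of period `l`. -/
theorem count_res (l : ℕ) :
    l * (resDegs E p).count l = Nat.card {ψ : Hm E p // Function.minimalPeriod fr ψ = l} := by
  classical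
  have h1 : Nat.card {ψ : Hm E p // Function.minimalPeriod fr ψ = l} =
      ∑ P ∈ (primesAbove E p).filter (fun P => P.inertiaDeg ℤ = l),
        Nat.card {ψ : Hm E p // RingHom.ker ψ = P} := by
    have := Fintype.ofFinite (Hm E p)
    simp_rw [Nat.card_eq_fintype_card, Fintype.card_subtype]
    rw [← Finset.card_biUnion]
    · congr 1
      ext ψ
      simp only [Finset.mem_filter, Finset.mem_univ, true_and, Finset.mem_biUnion]
      constructor
      · intro h
        exact ⟨RingHom.ker ψ, ⟨ker_mem ψ, by rw [← period ψ _ rfl, h]⟩, rfl⟩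
      · rintro ⟨P, ⟨hP, hl⟩, hψ⟩
        rw [period ψ P hψ, hl]
    · intro P hP Q hQ hPQ
      refine Finset.disjoint_left.2 ?_
      intro ψ h2 h3
      rw [Finset.mem_filter] at h2 h3
      exact hPQ (h2.2.symm.trans h3.2)
  rw [h1, Finset.sum_congr rfl (g := fun _ => l) (fun P hP => by
    rw [Finset.mem_filter] at hP
    rw [fib_card P hP.1, hP.2]), Finset.sum_const, smul_eq_mul, mul_comm]
  congr 1
  rw [resDegs, Multiset.count_map, Finset.card_def, Finset.filter_val]
  congr 1
  apply Multiset.filter_congr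
  intro P _
  exact eq_comm

theorem zero_notMem : 0 ∉ resDegs E p := by
  rw [resDegs, Multiset.mem_map]
  rintro ⟨P, hP, h⟩
  have := (mem_above.1 hP).1
  exact (Ideal.inertiaDeg_pos P ℤ).ne' h

/-- The number of all homomorphisms. -/
theorem card_Hm : Nat.card (Hm E p) = (resDegs E p).sum := by
  classical
  have := Fintype.ofFinite (Hm E p)
  have h1 : Nat.card (Hm E p) = ∑ P ∈ primesAbove E p, Nat.card {ψ : Hm E p // RingHom.ker ψ = P} := by
    simp_rw [Nat.card_eq_fintype_card, Fintype.card_subtype]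
    rw [← Finset.card_biUnion]
    · rw [← Finset.card_univ]
      congr 1
      ext ψ
      simp only [Finset.mem_filter, Finset.mem_univ, true_and, Finset.mem_biUnion, true_iff]
      exact ⟨RingHom.ker ψ, ker_mem ψ, rfl⟩
    · intro P hP Q hQ hPQ
      refine Finset.disjoint_left.2 ?_
      intro ψ h2 h3
      rw [Finset.mem_filter] at h2 h3
      exact hPQ (h2.2.symm.trans h3.2)
  rw [h1, resDegs, Finset.sum_congr rfl (fun P hP => fib_card P hP)]
  rfl

theorem sum_ef : ∑ P ∈ primesAbove E p, P.ramificationIdx ℤ * P.inertiaDeg ℤ = finrank ℚ E := by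
  classical
  have hfin : Finite ((Ideal.span {(p : ℤ)}).primesOver (𝓞 E)) := by
    rw [← IsDedekindDomain.coe_primesOverFinset (p := Ideal.span {(p : ℤ)}) span_ne_bot (𝓞 E)]
    infer_instance
  have := Fintype.ofFinite ((Ideal.span {(p : ℤ)}).primesOver (𝓞 E))
  rw [← RingOfIntegers.rank E, ← Ideal.sum_ramification_inertia_eq_finrank
    (Ideal.span {(p : ℤ)}) (𝓞 E)]
  refine (Finset.sum_subtype (primesAbove E p) (p := fun P => P ∈
    (Ideal.span {(p : ℤ)}).primesOver (𝓞 E)) (fun P => ?_)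
    (fun P => P.ramificationIdx ℤ * P.inertiaDeg ℤ))
  exact IsDedekindDomain.mem_primesOverFinset_iff span_ne_bot _

theorem unram_iff : Unram E p ↔ Nat.card (Hm E p) = finrank ℚ E := by
  rw [card_Hm, ← sum_ef (E := E) (p := p)]
  have e : (resDegs E p).sum = ∑ P ∈ primesAbove E p, P.inertiaDeg ℤ := rfl
  rw [e]
  have hle : ∀ P ∈ primesAbove E p, P.inertiaDeg ℤ ≤ P.ramificationIdx ℤ * P.inertiaDeg ℤ := by
    intro P hP
    have := (mem_above.1 hP).1
    exact Nat.le_mul_of_pos_left _ (Ideal.ramificationIdx_pos P ℤ)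
  rw [Finset.sum_eq_sum_iff_of_le hle]
  refine forall₂_congr fun P hP => ?_
  have := (mem_above.1 hP).1
  have h3 := Ideal.inertiaDeg_pos P ℤ
  constructor
  · intro h
    rw [h, one_mul]
  · intro h
    have h4 : 1 * P.inertiaDeg ℤ = P.ramificationIdx ℤ * P.inertiaDeg ℤ := by rw [one_mul]; exact h
    exact (Nat.eq_of_mul_eq_mul_right h3 h4).symm

end Pool.Agent.X285.FS
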