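import Mathlib
import Pool.Agent.W401.Cheb.Main
import Pool.Agent.X285.FS.Res

/-!
# The dictionary between residue degrees and cycles of Frobenius elements
-/

set_option autoImplicit false
set_option linter.all false

namespace Pool.Agent.X285.FS

open NumberField Module Pool.Agent.W401.Cheb

/-- Extension of a homomorphism to an algebraically closed field along an integral extension. -/
theorem ext_hom {A B k : Type} [CommRing A] [CommRing B] [Algebra A B] [Algebra.IsIntegral A B]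
    (hinj : Function.Injective (algebraMap A B)) [Field k] [IsAlgClosed k] (ψ : A →+* k)
    (hmax : (RingHom.ker ψ).IsMaximal) :
    ∃ f : B →+* k, ∀ a, f (algebraMap A B a) = ψ a := by
  obtain ⟨Q, hQ, hQP⟩ := Ideal.exists_ideal_over_maximal_of_isIntegral (S := B) (RingHom.ker ψ) (by
    rw [(RingHom.injective_iff_ker_eq_bot _).mp hinj]; exact bot_le)
  have hlo : Q.LiesOver (RingHom.ker ψ) := ⟨hQP.symm⟩
  let _ : Field (A ⧸ RingHom.ker ψ) := Ideal.Quotient.field _
  let _ : Field (B ⧸ Q) := Ideal.Quotient.field _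
  let ψ' : (A ⧸ RingHom.ker ψ) →+* k := Ideal.Quotient.lift _ ψ (fun a ha => ha)
  let _ : Algebra (A ⧸ RingHom.ker ψ) k := ψ'.toAlgebra
  have : Algebra.IsIntegral (A ⧸ RingHom.ker ψ) (B ⧸ Q) := inferInstance
  have : Algebra.IsAlgebraic (A ⧸ RingHom.ker ψ) (B ⧸ Q) := Algebra.IsIntegral.isAlgebraic
  let ℓ : (B ⧸ Q) →ₐ[A ⧸ RingHom.ker ψ] k := IsAlgClosed.lift
  refine ⟨(ℓ : (B ⧸ Q) →+* k).comp (Ideal.Quotient.mk Q), fun a => ?_⟩
  have h1 := ℓ.commutes (Ideal.Quotient.mk _ a)
  exact h1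

section

variable {M : Type} [Field M] [NumberField M] [IsGalois ℚ M]

theorem invZ (b : 𝓞 M) (hb : ∀ σ : Gal(M/ℚ), σ • b = b) : ∃ n : ℤ, (n : 𝓞 M) = b := by
  have hb1 : ∀ σ : Gal(M/ℚ), σ (b : M) = (b : M) := fun σ =>
    congrArg (algebraMap (𝓞 M) M) (hb σ)
  have hb2 : (b : M) ∈ (⊥ : IntermediateField ℚ M) :=
    (IsGalois.mem_bot_iff_fixed (F := ℚ) (E := M) (b : M)).mpr hb1
  obtain ⟨q, hq⟩ := IntermediateField.mem_bot.mp hb2
  have hint : IsIntegral ℤ q := by
    rw [← isIntegral_algebraMap_iff (algebraMap ℚ M).injective, hq]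
    exact b.2
  obtain ⟨n, hn⟩ := IsIntegrallyClosed.isIntegral_iff.mp hint
  refine ⟨n, ?_⟩
  apply RingOfIntegers.ext
  rw [← hq, ← hn]
  simp

variable {p : ℕ} [hp : Fact p.Prime]

theorem tr_all (φ φ' : Hm M p) : ∃ σ : Gal(M/ℚ), ∀ y, φ' y = φ (σ • y) := by
  refine W54.ChTor.trans φ φ' fun b hb => ?_
  obtain ⟨n, rfl⟩ := invZ b hb
  rw [map_intCast, map_intCast]

theorem exists_hm : Nonempty (Hm M p) := by
  obtain ⟨φ₀, -⟩ := W54.ChTor.exists_ext (A := ℤ) (B := 𝓞 M) (RingHom.injective_int _) p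
    (Int.castRingHom (ZMod p))
  exact ⟨φ₀⟩

/-- A Frobenius element. -/
theorem exists_fr (φ : Hm M p) : ∃ σ : Gal(M/ℚ), HasFrob p φ σ := by
  obtain ⟨σ, hσ⟩ := tr_all φ (fr φ)
  exact ⟨σ, fun x => (hσ x).symm⟩

variable {E : Type} [Field E] [NumberField E] (j : E →ₐ[ℚ] M)

/-- The group fixing the image of `E`. -/
def fixG : Subgroup Gal(M/ℚ) := j.fieldRange.fixingSubgroup

theorem mem_fixG {γ : Gal(M/ℚ)} : γ ∈ fixG j ↔ ∀ x, γ (j x) = j x := by
  rw [fixG, IntermediateField.mem_fixingSubgroup_iff]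
  constructor
  · intro h x
    exact h _ ⟨x, rfl⟩
  · rintro h _ ⟨x, rfl⟩
    exact h x

theorem index_fixG : (fixG j).index = finrank ℚ E := by
  rw [fixG, ← IntermediateField.finrank_eq_fixingSubgroup_index]
  exact (AlgEquiv.ofInjectiveField j).toLinearEquiv.finrank_eq.symm

/-- The map on integers. -/
noncomputable def jO : 𝓞 E →+* 𝓞 M := RingOfIntegers.mapRingHom (j : E →+* M)

/-- The restriction of homomorphisms. -/
noncomputable def res (φ : Hm M p) : Hm E p := φ.comp (jO j)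

theorem res_apply (φ : Hm M p) (x : 𝓞 E) : res j φ x = φ (jO j x) := rfl

theorem res_fr (φ : Hm M p) : res j (fr φ) = fr (res j φ) := rfl

theorem res_surj (ψ : Hm E p) : ∃ φ : Hm M p, res j φ = ψ := by
  let _ : Algebra E M := (j : E →+* M).toAlgebra
  obtain ⟨f, hf⟩ := ext_hom (A := 𝓞 E) (B := 𝓞 M) (RingOfIntegers.algebraMap.injective E M) ψ
    (above_max (ker_mem ψ))
  exact ⟨f, RingHom.ext fun a => hf a⟩

theorem smul_map {γ : Gal(M/ℚ)} (h : γ ∈ fixG j) (x : 𝓞 E) :
    γ • (jO j x) = jO j x := by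
  apply RingOfIntegers.ext
  exact (mem_fixG j).1 h x

/-- the map from the cosets to the homomorphisms -/
noncomputable def toHm (φ : Hm M p) : Gal(M/ℚ) ⧸ fixG j → Hm E p :=
  Quotient.lift (fun γ => res j (W54.ChTor.cmp φ γ)) (by
    intro a b hab
    have h1 : a⁻¹ * b ∈ fixG j := QuotientGroup.leftRel_apply.1 hab
    refine RingHom.ext fun x => ?_
    rw [res_apply, res_apply, W54.ChTor.cmp_apply, W54.ChTor.cmp_apply]
    have h2 : b = a * (a⁻¹ * b) := by group
    rw [h2, mul_smul, smul_map j h1])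

theorem toHm_mk (φ : Hm M p) (γ : Gal(M/ℚ)) :
    toHm j φ (γ : Gal(M/ℚ) ⧸ fixG j) = res j (W54.ChTor.cmp φ γ) := rfl

theorem toHm_surj (φ : Hm M p) : Function.Surjective (toHm j φ) := by
  intro ψ
  obtain ⟨φ', hφ'⟩ := res_surj j ψ
  obtain ⟨σ, hσ⟩ := tr_all φ φ'
  refine ⟨(σ : Gal(M/ℚ) ⧸ fixG j), ?_⟩
  rw [toHm_mk, ← hφ']
  congr 1
  exact RingHom.ext fun y => (hσ y).symm

theorem toHm_smul (φ : Hm M p) (σ : Gal(M/ℚ)) (hσ : HasFrob p φ σ) (x : Gal(M/ℚ) ⧸ fixG j) :
    toHm j φ (σ • x) = fr (toHm j φ x) := by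
  induction x using QuotientGroup.induction_on with
  | H γ =>
    change toHm j φ ((σ * γ : Gal(M/ℚ)) : Gal(M/ℚ) ⧸ fixG j) = _
    rw [toHm_mk, toHm_mk, ← res_fr]
    congr 1
    refine RingHom.ext fun y => ?_
    rw [W54.ChTor.cmp_apply, mul_smul, hσ]
    rfl

theorem toHm_bij (φ : Hm M p) (h : Unram E p) : Function.Bijective (toHm j φ) := by
  have h1 : Nat.card (Gal(M/ℚ) ⧸ fixG j) = Nat.card (Hm E p) := by
    rw [unram_iff.1 h, ← index_fixG j]
    rfl
  exact (Nat.bijective_iff_surjective_and_card _).2 ⟨toHm_surj j φ, h1⟩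

/-- **The dictionary.** -/
theorem dict (φ : Hm M p) (σ : Gal(M/ℚ)) (hσ : HasFrob p φ σ) (h : Unram E p) (l : ℕ) :
    l * (resDegs E p).count l =
      Nat.card {x : Gal(M/ℚ) ⧸ fixG j // Function.minimalPeriod (fun y => σ • y) x = l} := by
  rw [count_res]
  symm
  refine Nat.card_congr ((Equiv.ofBijective _ (toHm_bij j φ h)).subtypeEquiv ?_)
  intro x
  have hiter : ∀ k : ℕ, toHm j φ ((fun y => σ • y)^[k] x) = fr^[k] (toHm j φ x) := by
    intro k
    induction k with
    | zero => rfl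
    | succ k ih => rw [Function.iterate_succ_apply', Function.iterate_succ_apply', toHm_smul j φ σ hσ,
        ih]
  have hper : ∀ k : ℕ, Function.IsPeriodicPt (fun y => σ • y) k x ↔
      Function.IsPeriodicPt fr k (toHm j φ x) := by
    intro k
    constructor
    · intro hk
      change fr^[k] (toHm j φ x) = _
      rw [← hiter, hk.eq]
    · intro hk
      refine (toHm_bij j φ h).1 ?_
      rw [hiter]
      exact hk
  have e : Function.minimalPeriod (fun y => σ • y) x = Function.minimalPeriod fr (toHm j φ x) :=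
    Nat.dvd_antisymm
      (((hper _).2 (Function.isPeriodicPt_minimalPeriod _ _)).minimalPeriod_dvd)
      (((hper _).1 (Function.isPeriodicPt_minimalPeriod _ _)).minimalPeriod_dvd)
  rw [e]
  rfl

/-- Almost all primes are unramified. -/
theorem unram_of_tor (j : E →ₐ[ℚ] M) (hT : ∀ φ φ' : Hm M p, ∃! σ : Gal(M/ℚ), ∀ x, φ' x = φ (σ • x)) :
    Unram E p := by
  obtain ⟨φ⟩ := exists_hm (M := M) (p := p)
  rw [unram_iff, ← index_fixG j]
  symm
  change Nat.card (Gal(M/ℚ) ⧸ fixG j) = _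
  refine Nat.card_congr (Equiv.ofBijective (toHm j φ) ⟨?_, toHm_surj j φ⟩)
  intro x y hxy
  induction x using QuotientGroup.induction_on with
  | H a =>
  induction y using QuotientGroup.induction_on with
  | H b =>
    rw [toHm_mk, toHm_mk] at hxy
    obtain ⟨u, hu⟩ := W54.ChTor.trans (H := fixG j) (W54.ChTor.cmp φ a) (W54.ChTor.cmp φ b)
      (fun z hz => by
        have hz1 : (z : M) ∈ IntermediateField.fixedField (j.fieldRange.fixingSubgroup) := by
          rw [IntermediateField.mem_fixedField_iff]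
          intro g hg
          exact congrArg (algebraMap (𝓞 M) M) (hz ⟨g, hg⟩)
        rw [IsGalois.fixedField_fixingSubgroup] at hz1
        obtain ⟨w, hw⟩ := hz1
        have hw' : j w = (z : M) := hw
        have hint : IsIntegral ℤ w := by
          rw [← isIntegral_algHom_iff (j.restrictScalars ℤ) j.injective]
          change IsIntegral ℤ (j w)
          rw [hw']
          exact z.2
        have hz2 : z = jO j ⟨w, hint⟩ := by
          apply RingOfIntegers.ext
          exact hw'.symm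
        rw [hz2]
        exact RingHom.congr_fun hxy _)
    obtain ⟨σ, hσ, huniq⟩ := hT φ (W54.ChTor.cmp φ b)
    have h1 := huniq b (fun x => rfl)
    have h2 := huniq (a * u) (fun x => by
      rw [hu, W54.ChTor.cmp_apply, mul_smul]
      rfl)
    rw [QuotientGroup.eq]
    have h3 : b = a * u := h1.trans h2.symm
    rw [h3]
    simpa using u.2

end

end Pool.Agent.X285.FS
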