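import Mathlib
import Pool.Agent.X285.FS.Dic
import Pool.Agent.X285.Deg

/-!
# The definitions, and the necessary condition
-/

set_option autoImplicit false
set_option linter.all false

namespace Pool.Agent.X285.FS

open NumberField Module Function Pool.Agent.W401.Cheb

instance galQB : IsGalois ℚ QB := Pool.Agent.X285.gal_Qb

instance galM (M : IntermediateField ℚ QB) [Normal ℚ M] : IsGalois ℚ M := ⟨⟩

section

variable (M : IntermediateField ℚ QB) [Normal ℚ M]

/-- the restriction -/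
noncomputable def rs : Gal(QB/ℚ) →* Gal(M/ℚ) := AlgEquiv.restrictNormalHom M

theorem rs_apply (τ : Gal(QB/ℚ)) (x : M) : ((rs M τ x : M) : QB) = τ x :=
  AlgEquiv.restrictNormal_commutes τ M x

theorem rs_surj : Surjective (rs M) := AlgEquiv.restrictNormalHom_surjective QB

theorem rs_mem [NumberField M] {K : IntermediateField ℚ QB} [NumberField K] (h : K ≤ M)
    (τ : Gal(QB/ℚ)) :
    rs M τ ∈ fixG (IntermediateField.inclusion h) ↔ τ ∈ K.fixingSubgroup := by
  rw [mem_fixG, IntermediateField.mem_fixingSubgroup_iff]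
  constructor
  · intro h1 x hx
    have h2 := congrArg (algebraMap M QB) (h1 ⟨x, hx⟩)
    rw [← rs_apply M τ ⟨x, h hx⟩]
    exact h2
  · intro h1 x
    refine Subtype.ext ?_
    rw [rs_apply]
    exact h1 _ x.2

end

/-- The necessary condition. -/
theorem nec (K F : IntermediateField ℚ QB) [NumberField K] [NumberField F] (h : IsFake K F)
    (Ω : IntermediateField ℚ QB) [hΩn : Normal ℚ Ω] [NumberField Ω] (hK : K ≤ Ω) :
    ∃ U : Subgroup Gal(Ω/ℚ),
      (∀ u ∈ U, ∃ g : Gal(Ω/ℚ), g⁻¹ * u * g ∈ fixG (IntermediateField.inclusion hK)) ∧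
      ∀ g : Gal(Ω/ℚ), ∃ u ∈ U, g⁻¹ * u * g ∉ fixG (IntermediateField.inclusion hK) := by
  refine ⟨F.fixingSubgroup.map (rs Ω), ?_, ?_⟩
  · rintro _ ⟨τ, hτ, rfl⟩
    let M : IntermediateField ℚ QB := Ω ⊔ IntermediateField.normalClosure ℚ F QB
    have hNn : Normal ℚ (IntermediateField.normalClosure ℚ F QB) := normalClosure.normal ℚ F QB
    have hMn : Normal ℚ M := @IntermediateField.normal_sup ℚ QB _ _ _ Ω _ hΩn hNn
    have hMf : FiniteDimensional ℚ M := by
      have := normalClosure.is_finiteDimensional ℚ F QB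
      exact IntermediateField.finiteDimensional_sup _ _
    have hM : NumberField M := { to_charZero := inferInstance, to_finiteDimensional := hMf }
    have hFM : F ≤ M := (IntermediateField.le_normalClosure F).trans le_sup_right
    have hKM : K ≤ M := hK.trans le_sup_left
    obtain ⟨D, hD, hT⟩ := torsor M
    obtain ⟨p, ⟨hp, hx⟩, hpD⟩ := (infinite_frob M (rs M τ)).exists_gt D
    have hpf : Fact p.Prime := ⟨hp⟩
    have hnd : ¬ p ∣ D := fun h1 => absurd (Nat.le_of_dvd hD h1) (by omega)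
    have hT' := (hT p hnd).2.1
    have hUK : Unram K p := unram_of_tor (IntermediateField.inclusion hKM) hT'
    have hUF : Unram F p := unram_of_tor (IntermediateField.inclusion hFM) hT'
    obtain ⟨φ, hφ⟩ : ∃ φ : Hm M p, HasFrob p φ (rs M τ) := by
      rw [xp, dif_pos hp] at hx
      obtain ⟨⟨φ, hφ⟩⟩ := (Nat.card_pos_iff.1 (Nat.pos_of_ne_zero hx)).1
      exact ⟨φ, hφ⟩
    obtain ⟨d, hd, hloc⟩ := h.1
    obtain ⟨e, he1, he2⟩ := hloc p hp hUK hUF
    have h1 := dict (IntermediateField.inclusion hFM) φ (rs M τ) hφ hUF 1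
    have h2 : 0 < Nat.card {x : Gal(M/ℚ) ⧸ fixG (IntermediateField.inclusion hFM) //
        minimalPeriod (fun y => rs M τ • y) x = 1} := by
      rw [Nat.card_pos_iff]
      refine ⟨⟨⟨((1 : Gal(M/ℚ)) : Gal(M/ℚ) ⧸ _), ?_⟩⟩, inferInstance⟩
      rw [minimalPeriod_eq_one_iff_isFixedPt]
      change ((rs M τ * 1 : Gal(M/ℚ)) : Gal(M/ℚ) ⧸ fixG (IntermediateField.inclusion hFM)) = _
      rw [eq_comm, QuotientGroup.eq, inv_one, one_mul, mul_one, rs_mem]
      exact hτ
    rw [← h1, one_mul, Multiset.count_pos, he2, Multiset.mem_sum] at h2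
    obtain ⟨P, hP, hP2⟩ := h2
    obtain ⟨a, ha, ha2⟩ := Multiset.mem_map.1 hP2
    have h3 : P.inertiaDeg ℤ = 1 := Nat.eq_one_of_mul_eq_one_right ha2
    have h4 : 0 < (resDegs K p).count 1 := by
      rw [Multiset.count_pos, resDegs, Multiset.mem_map]
      exact ⟨P, hP, h3⟩
    have h5 := dict (IntermediateField.inclusion hKM) φ (rs M τ) hφ hUK 1
    rw [one_mul] at h5
    rw [h5, Nat.card_pos_iff] at h4
    obtain ⟨⟨x, hx'⟩⟩ := h4.1
    induction x using QuotientGroup.induction_on with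
    | H γ =>
      rw [minimalPeriod_eq_one_iff_isFixedPt] at hx'
      have h6 : γ⁻¹ * (rs M τ * γ) ∈ fixG (IntermediateField.inclusion hKM) := by
        rw [← QuotientGroup.eq]
        exact hx'.symm
      obtain ⟨δ, rfl⟩ := rs_surj M γ
      rw [← map_mul, ← map_inv, ← map_mul, rs_mem] at h6
      refine ⟨rs Ω δ, ?_⟩
      rw [← map_inv, ← map_mul, ← map_mul, rs_mem, mul_assoc]
      exact h6
  · intro g
    by_contra hcon
    push Not at hcon
    obtain ⟨δ, rfl⟩ := rs_surj Ω g
    refine h.2 δ⁻¹ ?_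
    intro x hx
    have h1 : δ x ∈ F := by
      rw [← InfiniteGalois.fixedField_fixingSubgroup F, IntermediateField.mem_fixedField_iff]
      intro τ hτ
      have h2 := hcon (rs Ω τ) ⟨τ, hτ, rfl⟩
      rw [← map_inv, ← map_mul, ← map_mul, rs_mem, IntermediateField.mem_fixingSubgroup_iff] at h2
      have h3 := h2 x hx
      rw [AlgEquiv.mul_apply, AlgEquiv.mul_apply] at h3
      have h4 := congrArg δ h3
      rw [← AlgEquiv.mul_apply, mul_inv_cancel, AlgEquiv.one_apply] at h4
      exact h4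
    refine ⟨δ x, h1, ?_⟩
    change δ⁻¹ (δ x) = x
    rw [← AlgEquiv.mul_apply, inv_mul_cancel, AlgEquiv.one_apply]

end Pool.Agent.X285.FS
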