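import Mathlib
import Pool.Agent.X285.FS.Nec
import Pool.Agent.X285.FS.GrpB

/-!
# The construction
-/

set_option autoImplicit false
set_option linter.all false

namespace Pool.Agent.X285.FS

open NumberField Module Function Pool.Agent.W401.Cheb

theorem minPer_congr {X Y : Type} (f : X → X) (g : Y → Y) (x : X) (y : Y)
    (h : ∀ k, IsPeriodicPt f k x ↔ IsPeriodicPt g k y) : minimalPeriod f x = minimalPeriod g y :=
  Nat.dvd_antisymm
    (((h _).2 (isPeriodicPt_minimalPeriod _ _)).minimalPeriod_dvd)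
    (((h _).1 (isPeriodicPt_minimalPeriod _ _)).minimalPeriod_dvd)

section transport

variable {A B : Type} [Group A] [Group B] (θ : A ≃* B) (H₁ : Subgroup A) (H₂ : Subgroup B)
  (h : ∀ a, a ∈ H₁ ↔ θ a ∈ H₂)

/-- the equivalence of the coset spaces -/
def quoEquiv : A ⧸ H₁ ≃ B ⧸ H₂ :=
  Quotient.congr θ.toEquiv (fun a b => by
    change (QuotientGroup.leftRel H₁) a b ↔ (QuotientGroup.leftRel H₂) (θ a) (θ b)
    rw [QuotientGroup.leftRel_apply, QuotientGroup.leftRel_apply, h, map_mul, map_inv])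

theorem quoEquiv_mk (a : A) : quoEquiv θ H₁ H₂ h (a : A ⧸ H₁) = (θ a : B ⧸ H₂) := rfl

include h in
theorem transport (σ : A) (l : ℕ) :
    Nat.card {x : A ⧸ H₁ // minimalPeriod (fun y => σ • y) x = l} =
      Nat.card {x : B ⧸ H₂ // minimalPeriod (fun y => θ σ • y) x = l} := by
  refine Nat.card_congr ((quoEquiv θ H₁ H₂ h).subtypeEquiv ?_)
  intro x
  induction x using QuotientGroup.induction_on with
  | H a =>
    rw [quoEquiv_mk, minPer_congr (fun y : A ⧸ H₁ => σ • y) (fun y : B ⧸ H₂ => θ σ • y)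
      (a : A ⧸ H₁) (θ a : B ⧸ H₂) (fun k => by
        rw [period_iter, period_iter, h, map_mul, map_mul, map_inv, map_pow])]

include h in
theorem index_transport : H₁.index = H₂.index := Nat.card_congr (quoEquiv θ H₁ H₂ h)

end transport

theorem rs_one_iff (Ω : IntermediateField ℚ QB) [Normal ℚ Ω] (τ : Gal(QB/ℚ)) : rs Ω τ = 1 ↔ τ ∈ Ω.fixingSubgroup := by
  rw [IntermediateField.mem_fixingSubgroup_iff]
  constructor
  · intro h x hx
    have h1 := rs_apply Ω τ ⟨x, hx⟩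
    rw [h] at h1
    exact h1.symm
  · intro h
    ext x
    rw [rs_apply]
    exact h _ x.2

/-- The field fixed by an open subgroup. -/
theorem fixed_open (H : Subgroup Gal(QB/ℚ)) (hH : IsOpen (H : Set Gal(QB/ℚ))) :
    (IntermediateField.fixedField H).fixingSubgroup = H ∧
      NumberField (IntermediateField.fixedField H) := by
  have h1 : (IntermediateField.fixedField H).fixingSubgroup = H :=
    InfiniteGalois.fixingSubgroup_fixedField ⟨H, Subgroup.isClosed_of_isOpen H hH⟩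
  refine ⟨h1, ?_⟩
  have h2 : IsOpen (IntermediateField.fixedField H).fixingSubgroup.carrier := by
    rw [h1]
    exact hH
  exact { to_charZero := inferInstance
          to_finiteDimensional := (InfiniteGalois.isOpen_iff_finite _).1 h2 }

section

variable (K Ω : IntermediateField ℚ QB) [NumberField K] [hΩn : Normal ℚ Ω] [NumberField Ω]
  (hK : K ≤ Ω) {n : ℕ} (q₁ q₂ : Gal(QB/ℚ) →* Equiv.Perm (Fin n))

/-- the homomorphism to the big group -/
noncomputable def Th : Gal(QB/ℚ) →* Big Gal(Ω/ℚ) n := (rs Ω).prod (q₁.prod q₂)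

theorem Th_surj (hq : ∀ a b, ∃ τ ∈ Ω.fixingSubgroup, q₁ τ = a ∧ q₂ τ = b) :
    Surjective (Th Ω q₁ q₂) := by
  rintro ⟨g, a, b⟩
  obtain ⟨δ, rfl⟩ := rs_surj Ω g
  obtain ⟨τ, hτ, h1, h2⟩ := hq ((q₁ δ)⁻¹ * a) ((q₂ δ)⁻¹ * b)
  refine ⟨δ * τ, ?_⟩
  have h3 : rs Ω τ = 1 := by
    ext x
    rw [rs_apply]
    exact (IntermediateField.mem_fixingSubgroup_iff _ _).1 hτ _ x.2
  refine Prod.ext ?_ (Prod.ext ?_ ?_)
  · change rs Ω (δ * τ) = rs Ω δ
    rw [map_mul, h3, mul_one]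
  · change q₁ (δ * τ) = a
    rw [map_mul, h1, mul_inv_cancel_left]
  · change q₂ (δ * τ) = b
    rw [map_mul, h2, mul_inv_cancel_left]

theorem Th_open (h1 : IsOpen (q₁.ker : Set Gal(QB/ℚ))) (h2 : IsOpen (q₂.ker : Set Gal(QB/ℚ))) :
    IsOpen ((Th Ω q₁ q₂).ker : Set Gal(QB/ℚ)) := by
  have h3 : ((Th Ω q₁ q₂).ker : Set Gal(QB/ℚ)) =
      (Ω.fixingSubgroup : Set Gal(QB/ℚ)) ∩ ((q₁.ker : Set Gal(QB/ℚ)) ∩ (q₂.ker : Set Gal(QB/ℚ))) := by
    ext τ
    simp only [SetLike.mem_coe, Set.mem_inter_iff, MonoidHom.mem_ker]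
    rw [← rs_one_iff]
    constructor
    · intro h
      exact ⟨congrArg Prod.fst h, congrArg (fun z => z.2.1) h, congrArg (fun z => z.2.2) h⟩
    · rintro ⟨h4, h5, h6⟩
      exact Prod.ext h4 (Prod.ext h5 h6)
  rw [h3]
  exact (IntermediateField.fixingSubgroup_isOpen Ω).inter (h1.inter h2)

/-- The construction of a fake overfield. -/
theorem suf (hq : ∀ a b, ∃ τ ∈ Ω.fixingSubgroup, q₁ τ = a ∧ q₂ τ = b)
    (ho₁ : IsOpen (q₁.ker : Set Gal(QB/ℚ))) (ho₂ : IsOpen (q₂.ker : Set Gal(QB/ℚ)))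
    (U : Subgroup Gal(Ω/ℚ))
    (hU1 : ∀ u ∈ U, ∃ g : Gal(Ω/ℚ), g⁻¹ * u * g ∈ fixG (IntermediateField.inclusion hK))
    (hU2 : ∀ g : Gal(Ω/ℚ), ∃ u ∈ U, g⁻¹ * u * g ∉ fixG (IntermediateField.inclusion hK))
    (φ : Gal(Ω/ℚ) →* Equiv.Perm (Fin n)) (hφ : Injective φ) (hn : Nat.card Gal(Ω/ℚ) ^ 3 < n) :
    ∃ (F : IntermediateField ℚ QB) (_ : NumberField F), IsFake K F ∧
      ∀ (M' : IntermediateField ℚ QB) (hM' : Normal ℚ M') (hΩM : Ω ≤ M'),
        (∀ (N : IntermediateField ℚ QB), Normal ℚ N → Ω ≤ N → F ≤ N → M' ≤ N) →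
        ∃ s : Gal(Ω/ℚ) →* Gal(M'/ℚ), s.range.Normal ∧
          ∀ (g : Gal(Ω/ℚ)) (x : Ω), ((s g (IntermediateField.inclusion hΩM x) : M') : QB) = g x := by
  classical
  have hΘs := Th_surj Ω q₁ q₂ hq
  have hΘo := Th_open Ω q₁ q₂ ho₁ ho₂
  set Θ := Th Ω q₁ q₂ with hΘ
  -- the field F
  have hHo : IsOpen (((UU φ U).comap Θ : Subgroup Gal(QB/ℚ)) : Set Gal(QB/ℚ)) := by
    refine Subgroup.isOpen_mono (H₁ := Θ.ker) ?_ hΘo
    intro τ hτ
    rw [MonoidHom.mem_ker] at hτ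
    rw [Subgroup.mem_comap, hτ]
    exact one_mem _
  obtain ⟨hF1, hF2⟩ := fixed_open _ hHo
  obtain ⟨hM1, hM2⟩ := fixed_open _ hΘo
  set F := IntermediateField.fixedField ((UU φ U).comap Θ) with hF
  set M := IntermediateField.fixedField Θ.ker with hM
  have hMg : IsGalois ℚ M := (InfiniteGalois.normal_iff_isGalois M).1 (by
    rw [hM1]
    infer_instance)
  have hMn : Normal ℚ M := hMg.to_normal
  have hFM : F ≤ M := by
    rw [hF, hM]
    exact IntermediateField.fixedField_antitone (fun τ hτ => by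
      rw [MonoidHom.mem_ker] at hτ
      rw [Subgroup.mem_comap, hτ]
      exact one_mem _)
  have hΩM : Ω ≤ M := by
    intro x hx
    rw [hM, IntermediateField.mem_fixedField_iff]
    intro τ hτ
    rw [MonoidHom.mem_ker] at hτ
    have h1 : rs Ω τ = 1 := congrArg Prod.fst hτ
    exact (IntermediateField.mem_fixingSubgroup_iff _ _).1 ((rs_one_iff Ω τ).1 h1) x hx
  -- the isomorphism
  have hker : ∀ τ, rs M τ = 1 ↔ Θ τ = 1 := by
    intro τ
    rw [rs_one_iff, hM1, MonoidHom.mem_ker]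
  let θ₀ : Gal(M/ℚ) →* Big Gal(Ω/ℚ) n := (rs M).liftOfSurjective (rs_surj M)
    ⟨Θ, fun τ hτ => by
      rw [MonoidHom.mem_ker] at hτ ⊢
      exact (hker τ).1 hτ⟩
  have hθ₀ : ∀ τ, θ₀ (rs M τ) = Θ τ := fun τ =>
    MonoidHom.liftOfRightInverse_comp_apply (rs M) _ _ _ τ
  have hθb : Bijective θ₀ := by
    constructor
    · rw [injective_iff_map_eq_one]
      intro γ hγ
      obtain ⟨τ, rfl⟩ := rs_surj M γ
      rw [hθ₀] at hγ
      exact (hker τ).2 hγ
    · intro y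
      obtain ⟨τ, rfl⟩ := hΘs y
      exact ⟨rs M τ, hθ₀ τ⟩
  let θ : Gal(M/ℚ) ≃* Big Gal(Ω/ℚ) n := MulEquiv.ofBijective θ₀ hθb
  have hθ : ∀ τ, θ (rs M τ) = Θ τ := hθ₀
  have hmem : ∀ γ : Gal(M/ℚ), γ ∈ fixG (IntermediateField.inclusion hFM) ↔ θ γ ∈ UU φ U := by
    intro γ
    obtain ⟨τ, rfl⟩ := rs_surj M γ
    rw [rs_mem, hF1, hθ]
    rfl
  have hGn : Nat.card Gal(Ω/ℚ) ≤ n := by
    have : Nat.card Gal(Ω/ℚ) ≤ Nat.card Gal(Ω/ℚ) ^ 3 := Nat.le_self_pow (by norm_num) _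
    omega
  set V := fixG (IntermediateField.inclusion hK) with hV
  have hrF : finrank ℚ F = (UU φ U).index := by
    rw [← index_transport θ _ _ hmem, index_fixG]
  have hrK : finrank ℚ K = V.index := by
    rw [hV, index_fixG]
  refine ⟨F, hF2, ⟨?_, ?_⟩, ?_⟩
  · refine ⟨dd U V n, ?_, ?_⟩
    · rw [hrF, hrK, index_UU φ U V hGn]
    · intro p hp hUK hUF
      have hpf : Fact p.Prime := ⟨hp⟩
      obtain ⟨φ₀⟩ := exists_hm (M := M) (p := p)
      obtain ⟨σ₀, hσ₀⟩ := exists_fr φ₀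
      obtain ⟨τ, rfl⟩ := rs_surj M σ₀
      let j : Ω →ₐ[ℚ] M := IntermediateField.inclusion hΩM
      have hfr : HasFrob p (res j φ₀) (rs Ω τ) := by
        intro x
        rw [res_apply, res_apply, ← hσ₀]
        congr 1
        apply RingOfIntegers.ext
        apply (algebraMap M QB).injective
        have e1 := rs_apply Ω τ (x : Ω)
        have e2 := rs_apply M τ ((jO j x : 𝓞 M) : M)
        exact e1.trans e2.symm
      have hK1 := dict (IntermediateField.inclusion hK) (res j φ₀) (rs Ω τ) hfr hUK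
      have hF3 := dict (IntermediateField.inclusion hFM) φ₀ (rs M τ) hσ₀ hUF
      have hF4 : ∀ l, l * (resDegs F p).count l =
          Nat.card {x : Big Gal(Ω/ℚ) n ⧸ UU φ U // minimalPeriod (fun y => Θ τ • y) x = l} := by
        intro l
        rw [hF3, transport θ _ _ hmem, hθ]
      refine grp_comb φ U V hU1 hφ hn (Θ τ) (primesAbove K p) (fun P => P.inertiaDeg ℤ) ?_ hK1 ?_
        (resDegs F p) zero_notMem hF4 ?_
      · intro P hP
        have := (mem_above.1 hP).1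
        exact Ideal.inertiaDeg_pos P ℤ
      · have h1 : ∑ P ∈ primesAbove K p, P.inertiaDeg ℤ = (resDegs K p).sum := rfl
        rw [h1, ← card_Hm, unram_iff.1 hUK, hrK]
      · rw [← card_Hm, unram_iff.1 hUF, hrF]
  · intro σ hσ
    obtain ⟨u, hu, hu2⟩ := hU2 (rs Ω σ⁻¹)
    obtain ⟨τ, hτ⟩ := hΘs (io φ u)
    apply hu2
    have h1 : rs Ω τ = u := congrArg Prod.fst hτ
    rw [← h1, ← map_inv, ← map_mul, ← map_mul, hV, rs_mem, IntermediateField.mem_fixingSubgroup_iff]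
    intro x hx
    obtain ⟨y, hy, hyx⟩ := hσ hx
    have hyx' : σ y = x := hyx
    have h2 : τ y = y := by
      have h3 : τ ∈ F.fixingSubgroup := by
        rw [hF1, Subgroup.mem_comap, hτ]
        exact ⟨u, hu, rfl⟩
      exact (IntermediateField.mem_fixingSubgroup_iff _ _).1 h3 y hy
    rw [← hyx']
    change (σ⁻¹)⁻¹ (τ (σ⁻¹ (σ y))) = σ y
    rw [← AlgEquiv.mul_apply σ⁻¹ σ, inv_mul_cancel, AlgEquiv.one_apply, h2, inv_inv]
  · intro M' hM' hΩM' hmin
    have hM'M : M' ≤ M := hmin M hMn hΩM hFM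
    have hdep : ∀ τ τ' : Gal(QB/ℚ), Θ τ = Θ τ' → rs M' τ = rs M' τ' := by
      intro τ τ' h
      rw [← inv_mul_eq_one, ← map_inv, ← map_mul, rs_one_iff, IntermediateField.mem_fixingSubgroup_iff]
      have h1 : τ⁻¹ * τ' ∈ M.fixingSubgroup := by
        rw [hM1, MonoidHom.mem_ker, map_mul, map_inv, h, inv_mul_cancel]
      intro x hx
      exact (IntermediateField.mem_fixingSubgroup_iff _ _).1 h1 x (hM'M hx)
    choose t ht using fun g : Gal(Ω/ℚ) => hΘs (g, 1, 1)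
    let s : Gal(Ω/ℚ) →* Gal(M'/ℚ) := MonoidHom.mk' (fun g => rs M' (t g)) (fun g g' => by
      rw [← map_mul]
      refine hdep _ _ ?_
      rw [map_mul, ht, ht, ht]
      exact Prod.ext rfl (Prod.ext (mul_one _).symm (mul_one _).symm))
    refine ⟨s, ⟨?_⟩, ?_⟩
    · rintro _ ⟨g, rfl⟩ γ
      obtain ⟨τ, rfl⟩ := rs_surj M' γ
      refine ⟨rs Ω τ * g * (rs Ω τ)⁻¹, ?_⟩
      change rs M' (t _) = rs M' τ * rs M' (t g) * (rs M' τ)⁻¹
      have e : rs M' τ * rs M' (t g) * (rs M' τ)⁻¹ = rs M' (τ * t g * τ⁻¹) := by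
        rw [map_mul, map_mul, map_inv]
      rw [e]
      refine hdep _ _ ?_
      rw [map_mul, map_mul, map_inv, ht, ht]
      refine Prod.ext rfl (Prod.ext ?_ ?_)
      · change (1 : Equiv.Perm (Fin n)) = (Θ τ).2.1 * 1 * (Θ τ).2.1⁻¹
        rw [mul_one, mul_inv_cancel]
      · change (1 : Equiv.Perm (Fin n)) = (Θ τ).2.2 * 1 * (Θ τ).2.2⁻¹
        rw [mul_one, mul_inv_cancel]
    · intro g x
      change ((rs M' (t g) (IntermediateField.inclusion hΩM' x) : M') : QB) = g x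
      rw [rs_apply]
      have h1 : rs Ω (t g) = g := congrArg Prod.fst (ht g)
      have h2 := rs_apply Ω (t g) x
      rw [h1] at h2
      exact h2.symm

end

end Pool.Agent.X285.FS
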