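import Mathlib
import Pool.Agent.X285.FS.Suf
import Pool.Agent.X285.NC.Sml

/-!
# The final theorem
-/

set_option autoImplicit false
set_option linter.all false

namespace Pool.Agent.X285.FS

open NumberField Module Function Pool.Agent.W401.Cheb
open Pool.Agent.H391R2
open Pool.Agent.X285.NC (locReal_wr)

theorem cayley (G : Type) [Group G] [Finite G] (n : ℕ) (hn : Nat.card G ≤ n) :
    ∃ φ : G →* Equiv.Perm (Fin n), Injective φ := by
  classical
  have h1 : Nonempty (G ↪ Fin n) := by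
    have := Fintype.ofFinite G
    rw [Function.Embedding.nonempty_iff_card_le, Fintype.card_fin, ← Nat.card_eq_fintype_card]
    exact hn
  obtain ⟨ι⟩ := h1
  refine ⟨(Equiv.Perm.extendDomainHom (p := fun x => x ∈ Set.range ι)
    (Equiv.ofInjective ι ι.injective)).comp (MulAction.toPermHom G G), ?_⟩
  rw [MonoidHom.coe_comp]
  exact (Equiv.Perm.extendDomainHom_injective _).comp MulAction.toPerm_injective

/-- Two symmetric groups over `ℚ`, disjoint from a given field. -/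
theorem two_sym (Ω : IntermediateField ℚ QB) [Normal ℚ Ω] [NumberField Ω] :
    ∃ n₀ : ℕ, ∀ n, n₀ ≤ n → ∃ q₁ q₂ : Gal(QB/ℚ) →* Equiv.Perm (Fin n),
      (∀ a b, ∃ τ ∈ Ω.fixingSubgroup, q₁ τ = a ∧ q₂ τ = b) ∧
      IsOpen (q₁.ker : Set Gal(QB/ℚ)) ∧ IsOpen (q₂.ker : Set Gal(QB/ℚ)) := by
  obtain ⟨n₀, h₀⟩ := locReal_wr Unit
  refine ⟨n₀, fun n hn => ?_⟩
  have hM : Pool.Agent.H451R6.FG Ω := ⟨inferInstance, galM Ω⟩
  obtain ⟨q, T, hq1, hq2, -⟩ := Pool.Agent.X285.NC.main (fun _ => Wr Unit n)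
    (fun i => (h₀ n hn).2) Ω hM
  let r : Wr Unit n →* Equiv.Perm (Fin n) := SemidirectProduct.rightHom
  have hr : Surjective r := SemidirectProduct.rightHom_surjective
  have hop : ∀ i, IsOpen ((r.comp (q i)).ker : Set Gal(QB/ℚ)) := by
    intro i
    refine Subgroup.isOpen_mono (H₁ := (q i).ker) ?_ (hq1 i)
    intro τ hτ
    rw [MonoidHom.mem_ker] at hτ ⊢
    rw [MonoidHom.comp_apply, hτ, map_one]
  refine ⟨r.comp (q 0), r.comp (q 1), ?_, hop 0, hop 1⟩
  intro a b
  obtain ⟨x, hx⟩ := hr a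
  obtain ⟨y, hy⟩ := hr b
  obtain ⟨τ, hτ, h2⟩ := hq2 (fun i => if i = 0 then x else y)
  refine ⟨τ, hτ, ?_, ?_⟩
  · rw [MonoidHom.comp_apply, h2, if_pos rfl, hx]
  · rw [MonoidHom.comp_apply, h2, if_neg one_ne_zero, hy]

/-- The final theorem. -/
theorem final (K : IntermediateField ℚ QB) [NumberField K] (h : IsFakeOfSome K) :
    HasSplitRealization K := by
  obtain ⟨F₀, hF₀, hf⟩ := h
  have hnn : Normal ℚ (galClosure K) := normalClosure.normal ℚ K QB
  have hfd : FiniteDimensional ℚ (galClosure K) := normalClosure.is_finiteDimensional ℚ K QB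
  have hnf : NumberField (galClosure K) := { to_charZero := inferInstance
                                             to_finiteDimensional := hfd }
  have hK : K ≤ galClosure K := IntermediateField.le_normalClosure K
  obtain ⟨U, hU1, hU2⟩ := nec K F₀ hf (galClosure K) hK
  obtain ⟨n₀, hn₀⟩ := two_sym (galClosure K)
  set n := max n₀ (Nat.card Gal(galClosure K/ℚ) ^ 3 + 1) with hn
  obtain ⟨q₁, q₂, hq, ho₁, ho₂⟩ := hn₀ n (le_max_left _ _)
  have hn1 : Nat.card Gal(galClosure K/ℚ) ^ 3 < n :=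
    lt_of_lt_of_le (Nat.lt_succ_self _) (le_max_right _ _)
  have hn2 : Nat.card Gal(galClosure K/ℚ) ≤ n := by
    have : Nat.card Gal(galClosure K/ℚ) ≤ Nat.card Gal(galClosure K/ℚ) ^ 3 :=
      Nat.le_self_pow (by norm_num) _
    omega
  obtain ⟨φ, hφ⟩ := cayley Gal(galClosure K/ℚ) n hn2
  obtain ⟨F, hF, hF1, hF2⟩ := suf K (galClosure K) hK q₁ q₂ hq ho₁ ho₂ U hU1 hU2 φ hφ hn1
  refine ⟨F, hF, hF1, ?_⟩
  have hnF : Normal ℚ (galClosure F) := normalClosure.normal ℚ F QB
  have hsup : Normal ℚ (compositum K F) :=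
    @IntermediateField.normal_sup ℚ QB _ _ _ _ _ hnn hnF
  have hle : galClosure K ≤ compositum K F := le_sup_left
  obtain ⟨s, hs1, hs2⟩ := hF2 (compositum K F) hsup hle (by
    intro N hN h1 h2
    refine sup_le h1 ?_
    exact (@IntermediateField.normalClosure_le_iff_of_normal ℚ QB _ _ _ galQB.to_normal F N hN).2 h2)
  exact ⟨s, hs1, fun g x => Subtype.ext (hs2 g x)⟩

end Pool.Agent.X285.FS
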